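import Mathlib
import Pool.Agent.Helper93.Sph.W1

/-! The kernel of the flow of a nondegenerate diagonal quadratic form. -/

set_option autoImplicit false

open MeasureTheory Real Set Filter Topology
open scoped ENNReal RealInnerProductSpace

namespace Pool.Agent.W2helper73.SC

open Pool.Agent.Helper93.Sph (En ek ek_norm ek_cont Fi Fi_cont bessel piece_int piece_l2 ek_int gint)

/-- the quadratic form -/
noncomputable def qf {n : ℕ} (c : Fin n → ℝ) (ξ : En n) : ℝ := ∑ j, c j * (ξ j) ^ 2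

/-- the phase of the flow at time `s` -/
noncomputable def tp {n : ℕ} (c : Fin n → ℝ) (s : ℝ) (ξ : En n) : ℂ :=
  Complex.exp (((-(s * qf c ξ) : ℝ) : ℂ) * Complex.I)

lemma qf_cont {n : ℕ} (c : Fin n → ℝ) : Continuous (qf c) := by
  unfold qf
  fun_prop

lemma tp_norm {n : ℕ} (c : Fin n → ℝ) (s : ℝ) (ξ : En n) : ‖tp c s ξ‖ = 1 :=
  Complex.norm_exp_ofReal_mul_I _

lemma tp_cont {n : ℕ} (c : Fin n → ℝ) : Continuous (fun z : ℝ × En n => tp c z.1 z.2) := by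
  unfold tp
  have := qf_cont c
  fun_prop

/-- the constant of the dispersive estimate -/
noncomputable def kc {n : ℕ} (c : Fin n → ℝ) : ℝ := ∏ j, √(π / |c j|)

lemma kc_nonneg {n : ℕ} (c : Fin n → ℝ) : 0 ≤ kc c :=
  Finset.prod_nonneg fun _ _ => Real.sqrt_nonneg _

lemma norm_factor {b t a w : ℝ} (hb : 0 < b) (ha : a ≠ 0) (ht : t ≠ 0) :
    ‖((π : ℂ) / ((b : ℂ) - (a * t : ℝ) * Complex.I)) ^ (1 / 2 : ℂ) *
      Complex.exp ((2 * π * Complex.I * w) ^ 2 / (4 * ((b : ℂ) - (a * t : ℝ) * Complex.I)))‖ ≤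
    √(π / |a|) * |t| ^ (-(1 / 2) : ℝ) := by
  set z : ℂ := (b : ℂ) - (a * t : ℝ) * Complex.I with hz
  have hre : z.re = b := by simp [hz]
  have him : z.im = -(a * t) := by simp [hz]
  have hz0 : z ≠ 0 := by
    intro h
    rw [h] at hre
    simp at hre
    exact hb.ne hre
  have h1 : |a| * |t| ≤ ‖z‖ := by
    have := Complex.abs_im_le_norm z
    rwa [him, abs_neg, abs_mul] at this
  have hat : 0 < |a| * |t| := mul_pos (abs_pos.2 ha) (abs_pos.2 ht)
  rw [norm_mul]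
  have h2 : ‖((π : ℂ) / z) ^ (1 / 2 : ℂ)‖ ≤ √(π / |a|) * |t| ^ (-(1 / 2) : ℝ) := by
    have e : (1 / 2 : ℂ) = ((1 / 2 : ℝ) : ℂ) := by push_cast; rfl
    rw [e, Complex.norm_cpow_real, norm_div, Complex.norm_real, Real.norm_of_nonneg pi_pos.le]
    calc (π / ‖z‖) ^ (1 / 2 : ℝ) ≤ (π / (|a| * |t|)) ^ (1 / 2 : ℝ) := by
          refine Real.rpow_le_rpow (by positivity) ?_ (by norm_num)
          exact div_le_div_of_nonneg_left pi_pos.le hat h1
      _ = (π / |a| * |t|⁻¹) ^ (1 / 2 : ℝ) := by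
          congr 1
          rw [← div_div, div_eq_mul_inv (π / |a|)]
      _ = _ := by
          rw [Real.mul_rpow (by positivity) (by positivity), ← Real.sqrt_eq_rpow,
            Real.inv_rpow (abs_nonneg t), ← Real.rpow_neg (abs_nonneg t)]
  have h3 : ‖Complex.exp ((2 * π * Complex.I * w) ^ 2 / (4 * z))‖ ≤ 1 := by
    rw [Complex.norm_exp]
    refine Real.exp_le_one_iff.2 ?_
    have e : (2 * π * Complex.I * w) ^ 2 / (4 * z) = ((-(π * w) ^ 2 : ℝ) : ℂ) * z⁻¹ := by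
      field_simp
      push_cast
      linear_combination (4 * (π : ℂ) ^ 2 * (w : ℂ) ^ 2) * Complex.I_sq
    rw [e, Complex.re_ofReal_mul, Complex.inv_re, hre]
    have h4 : 0 < Complex.normSq z := Complex.normSq_pos.2 hz0
    have : 0 ≤ b / Complex.normSq z := by positivity
    nlinarith [sq_nonneg (π * w)]
  calc _ ≤ √(π / |a|) * |t| ^ (-(1 / 2) : ℝ) * 1 := by
        refine mul_le_mul h2 h3 (norm_nonneg _) (by positivity)
    _ = _ := mul_one _

/-- **the dispersive estimate** for the regularised kernel -/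
lemma kernel {n : ℕ} {c : Fin n → ℝ} (hc : ∀ j, c j ≠ 0) {b t : ℝ} (hb : 0 < b) (ht : t ≠ 0)
    (w : En n) :
    ‖∫ ξ : En n, Complex.exp (2 * π * Complex.I * ((⟪w, ξ⟫ : ℝ) : ℂ)) * tp c (-t) ξ *
      ((rexp (-b * ‖ξ‖ ^ 2) : ℝ) : ℂ)‖ ≤ kc c * |t| ^ (-((n : ℝ) / 2)) := by
  have e1 : ∀ ξ : En n, Complex.exp (2 * π * Complex.I * ((⟪w, ξ⟫ : ℝ) : ℂ)) * tp c (-t) ξ *
      ((rexp (-b * ‖ξ‖ ^ 2) : ℝ) : ℂ) =
      (fun v : Fin n → ℝ => Complex.exp (-∑ i, ((b : ℂ) - (c i * t : ℝ) * Complex.I) * (v i : ℂ) ^ 2 +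
        ∑ i, (2 * π * Complex.I * w i) * v i)) (WithLp.ofLp ξ) := by
    intro ξ
    simp only
    rw [tp, Complex.ofReal_exp, ← Complex.exp_add, ← Complex.exp_add]
    congr 1
    have h1 : ((⟪w, ξ⟫ : ℝ) : ℂ) = ∑ i, (w i : ℂ) * (ξ i : ℂ) := by
      rw [PiLp.inner_apply]
      push_cast
      refine Finset.sum_congr rfl fun i _ => ?_
      simp [mul_comm]
    have h2 : ((‖ξ‖ ^ 2 : ℝ) : ℂ) = ∑ i, (ξ i : ℂ) ^ 2 := by
      rw [EuclideanSpace.norm_sq_eq]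
      push_cast
      refine Finset.sum_congr rfl fun i _ => ?_
      rw [Real.norm_eq_abs]
      norm_cast
      rw [sq_abs]
    have h3 : ((-b * ‖ξ‖ ^ 2 : ℝ) : ℂ) = -(b : ℂ) * ∑ i, (ξ i : ℂ) ^ 2 := by
      rw [← h2]; push_cast; ring
    rw [h1, h3, qf]
    push_cast
    rw [Finset.mul_sum, Finset.mul_sum, Finset.mul_sum, neg_eq_neg_one_mul
      (∑ x : Fin n, -(t : ℂ) * ((c x : ℂ) * (ξ x : ℂ) ^ 2)), Finset.mul_sum, Finset.sum_mul,
      ← Finset.sum_add_distrib, ← Finset.sum_add_distrib, neg_eq_neg_one_mul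
      (∑ i : Fin n, ((b : ℂ) - (c i : ℂ) * (t : ℂ) * Complex.I) * (ξ i : ℂ) ^ 2), Finset.mul_sum,
      ← Finset.sum_add_distrib]
    refine Finset.sum_congr rfl fun i _ => ?_
    ring
  have e2 : ∫ ξ : En n, Complex.exp (2 * π * Complex.I * ((⟪w, ξ⟫ : ℝ) : ℂ)) * tp c (-t) ξ *
      ((rexp (-b * ‖ξ‖ ^ 2) : ℝ) : ℂ) =
      ∏ i, ((π : ℂ) / ((b : ℂ) - (c i * t : ℝ) * Complex.I)) ^ (1 / 2 : ℂ) *
        Complex.exp ((2 * π * Complex.I * w i) ^ 2 / (4 * ((b : ℂ) - (c i * t : ℝ) * Complex.I))) := by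
    rw [← GaussianFourier.integral_cexp_neg_sum_mul_add (fun i => by simpa using hb)]
    simp_rw [e1]
    have hmp := PiLp.volume_preserving_ofLp (Fin n)
    have hme : MeasurableEmbedding (@WithLp.ofLp 2 (Fin n → ℝ)) :=
      (MeasurableEquiv.toLp 2 (Fin n → ℝ)).symm.measurableEmbedding
    exact hmp.integral_comp hme (fun v : Fin n → ℝ =>
      Complex.exp (-∑ i, ((b : ℂ) - (c i * t : ℝ) * Complex.I) * (v i : ℂ) ^ 2 +
        ∑ i, (2 * π * Complex.I * w i) * v i))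
  rw [e2, norm_prod]
  calc _ ≤ ∏ i : Fin n, √(π / |c i|) * |t| ^ (-(1 / 2) : ℝ) :=
        Finset.prod_le_prod (fun i _ => norm_nonneg _) fun i _ => norm_factor hb (hc i) ht
    _ = kc c * |t| ^ (-((n : ℝ) / 2)) := by
        rw [Finset.prod_mul_distrib, Finset.prod_const, Finset.card_univ, Fintype.card_fin, kc,
          ← Real.rpow_natCast, ← Real.rpow_mul (abs_nonneg t)]
        congr 2
        ring

end Pool.Agent.W2helper73.SC
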