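import Mathlib
import Pool.Agent.W2helper73.SC.Ker

/-! The bilinear form of the flow: the two bounds. -/

set_option autoImplicit false

open MeasureTheory Real Set Filter Topology
open scoped ENNReal RealInnerProductSpace

namespace Pool.Agent.W2helper73.SC

open Pool.Agent.Helper93.Sph (En ek ek_norm ek_cont Fi Fi_cont bessel piece_int piece_l2 ek_int gint)

/-- the Fourier transform -/
noncomputable def Fc {n : ℕ} (u : En n → ℂ) (ξ : En n) : ℂ := ∫ x, (starRingEnd ℂ) (ek x ξ) * u x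

lemma ek_conj {n : ℕ} (x ξ : En n) : (starRingEnd ℂ) (ek x ξ) = ek (-ξ) x := by
  rw [ek, ek, ← Complex.exp_conj]
  congr 1
  rw [inner_neg_left, real_inner_comm x ξ]
  simp only [map_mul, Complex.conj_ofReal, Complex.conj_I, map_ofNat]
  push_cast
  ring

lemma Fc_eq {n : ℕ} (u : En n → ℂ) (ξ : En n) : Fc u ξ = Fi u (-ξ) := by
  unfold Fc Fi
  simp_rw [ek_conj]

lemma Fc_cont {n : ℕ} {u : En n → ℂ} (hu : Integrable u) : Continuous (Fc u) := by
  have : Fc u = fun ξ => Fi u (-ξ) := funext fun ξ => Fc_eq u ξ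
  rw [this]
  exact (Fi_cont hu).comp continuous_neg

lemma Fc_bdd {n : ℕ} (u : En n → ℂ) (ξ : En n) : ‖Fc u ξ‖ ≤ ∫ x, ‖u x‖ := by
  refine (norm_integral_le_integral_norm _).trans (le_of_eq ?_)
  refine integral_congr_ae (Eventually.of_forall fun x => ?_)
  simp only [norm_mul, RCLike.norm_conj, ek_norm, one_mul]

lemma Fc_l2 {n : ℕ} {u : En n → ℂ} (hu : Integrable u) :
    ∫⁻ ξ, ‖Fc u ξ‖ₑ ^ 2 ≤ ∫⁻ x, ‖u x‖ₑ ^ 2 := by
  simp_rw [Fc_eq]
  rw [lintegral_neg_eq_self (fun ξ => ‖Fi u ξ‖ₑ ^ 2)]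
  exact bessel hu

lemma tp_conj {n : ℕ} (c : Fin n → ℝ) (s : ℝ) (ξ : En n) :
    (starRingEnd ℂ) (tp c s ξ) = tp c (-s) ξ := by
  rw [tp, tp, ← Complex.exp_conj]
  congr 1
  simp only [map_mul, Complex.conj_ofReal, Complex.conj_I]
  push_cast
  ring

lemma tp_add {n : ℕ} (c : Fin n → ℝ) (s t : ℝ) (ξ : En n) :
    tp c s ξ * tp c t ξ = tp c (s + t) ξ := by
  rw [tp, tp, tp, ← Complex.exp_add]
  congr 1
  push_cast
  ring

/-- the bilinear form -/
noncomputable def J {n : ℕ} (c : Fin n → ℝ) (b t : ℝ) (u v : En n → ℂ) : ℂ :=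
  ∫ ξ : En n, tp c (-t) ξ * (Fc u ξ * (starRingEnd ℂ) (Fc v ξ)) * ((rexp (-b * ‖ξ‖ ^ 2) : ℝ) : ℂ)

lemma J_disp {n : ℕ} {c : Fin n → ℝ} (hc : ∀ j, c j ≠ 0) {b t : ℝ} (hb : 0 < b) (ht : t ≠ 0)
    {u v : En n → ℂ} (hu : Integrable u) (hv : Integrable v) :
    ‖J c b t u v‖ ≤ kc c * |t| ^ (-((n : ℝ) / 2)) * ((∫ x, ‖u x‖) * ∫ x, ‖v x‖) := by
  set g : En n → ℝ := fun x => rexp (-b * ‖x‖ ^ 2) with hg
  have hgi : Integrable g := gint hb
  set H : En n → En n × En n → ℂ := fun ξ z =>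
    tp c (-t) ξ * (((starRingEnd ℂ) (ek z.1 ξ) * u z.1) *
      (starRingEnd ℂ) ((starRingEnd ℂ) (ek z.2 ξ) * v z.2)) * (g ξ : ℂ) with hH
  have hGG : Integrable (fun z : En n × En n => ‖u z.1‖ * ‖v z.2‖) (volume.prod volume) :=
    hu.norm.mul_prod hv.norm
  have hHm : AEStronglyMeasurable (Function.uncurry H) (volume.prod (volume.prod volume)) := by
    have c1 : AEStronglyMeasurable (fun p : En n × (En n × En n) => (starRingEnd ℂ) (ek p.2.1 p.1))
        (volume.prod (volume.prod volume)) :=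
      (Complex.continuous_conj.comp (ek_cont.comp (by fun_prop :
        Continuous fun p : En n × (En n × En n) => (p.2.1, p.1)))).aestronglyMeasurable
    have c2 : AEStronglyMeasurable (fun p : En n × (En n × En n) => (starRingEnd ℂ) (ek p.2.2 p.1))
        (volume.prod (volume.prod volume)) :=
      (Complex.continuous_conj.comp (ek_cont.comp (by fun_prop :
        Continuous fun p : En n × (En n × En n) => (p.2.2, p.1)))).aestronglyMeasurable
    have q1 : Measure.QuasiMeasurePreserving (fun p : En n × (En n × En n) => p.2.1)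
        (volume.prod (volume.prod volume)) volume :=
      Measure.quasiMeasurePreserving_fst.comp Measure.quasiMeasurePreserving_snd
    have q2 : Measure.QuasiMeasurePreserving (fun p : En n × (En n × En n) => p.2.2)
        (volume.prod (volume.prod volume)) volume :=
      Measure.quasiMeasurePreserving_snd.comp Measure.quasiMeasurePreserving_snd
    have d1 := hu.aestronglyMeasurable.comp_quasiMeasurePreserving q1
    have d2 := hv.aestronglyMeasurable.comp_quasiMeasurePreserving q2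
    have d3 : AEStronglyMeasurable (fun p : En n × (En n × En n) => (g p.1 : ℂ))
        (volume.prod (volume.prod volume)) := by
      have : Continuous (fun p : En n × (En n × En n) => (g p.1 : ℂ)) := by
        rw [hg]; fun_prop
      exact this.aestronglyMeasurable
    have d4 : AEStronglyMeasurable (fun p : En n × (En n × En n) => tp c (-t) p.1)
        (volume.prod (volume.prod volume)) :=
      ((tp_cont c).comp (by fun_prop : Continuous fun p : En n × (En n × En n) =>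
        (-t, p.1))).aestronglyMeasurable
    exact (d4.mul ((c1.mul d1).mul
      (Complex.continuous_conj.comp_aestronglyMeasurable (c2.mul d2)))).mul d3
  have hHn : ∀ x z, ‖H x z‖ = g x * (‖u z.1‖ * ‖v z.2‖) := by
    intro x z
    rw [hH]
    simp only [norm_mul, RCLike.norm_conj, ek_norm, tp_norm, one_mul, Complex.norm_real, hg,
      Real.norm_of_nonneg (exp_pos _).le]
    ring
  have hHi : Integrable (Function.uncurry H) (volume.prod (volume.prod volume)) := by
    have h1 : Integrable (fun p : En n × (En n × En n) => g p.1 * (‖u p.2.1‖ * ‖v p.2.2‖))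
        (volume.prod (volume.prod volume)) := hgi.mul_prod hGG
    refine h1.mono' hHm (Eventually.of_forall fun p => ?_)
    exact (hHn p.1 p.2).le
  have e1 : ∀ ξ, tp c (-t) ξ * (Fc u ξ * (starRingEnd ℂ) (Fc v ξ)) * ((g ξ : ℝ) : ℂ) =
      ∫ z : En n × En n, H ξ z := by
    intro ξ
    rw [hH]
    simp only
    rw [integral_mul_const, integral_const_mul, Measure.volume_eq_prod,
      integral_prod_mul (fun x => (starRingEnd ℂ) (ek x ξ) * u x)
        (fun y => (starRingEnd ℂ) ((starRingEnd ℂ) (ek y ξ) * v y)), integral_conj]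
    rfl
  have e2 : J c b t u v = ∫ z : En n × En n, ∫ ξ, H ξ z := by
    rw [J]
    change ∫ ξ : En n, tp c (-t) ξ * (Fc u ξ * (starRingEnd ℂ) (Fc v ξ)) * ((g ξ : ℝ) : ℂ) = _
    simp_rw [e1]
    exact integral_integral_swap hHi
  have e3 : ∀ z : En n × En n, ∫ ξ, H ξ z = u z.1 * (starRingEnd ℂ) (v z.2) *
      ∫ ξ : En n, Complex.exp (2 * π * Complex.I * ((⟪z.2 - z.1, ξ⟫ : ℝ) : ℂ)) * tp c (-t) ξ *
        ((rexp (-b * ‖ξ‖ ^ 2) : ℝ) : ℂ) := by
    intro z
    rw [← integral_const_mul]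
    refine integral_congr_ae (Eventually.of_forall fun ξ => ?_)
    simp only [hH, hg]
    have e4 : (starRingEnd ℂ) (ek z.1 ξ) * ek z.2 ξ =
        Complex.exp (2 * π * Complex.I * ((⟪z.2 - z.1, ξ⟫ : ℝ) : ℂ)) := by
      rw [ek, ek, ← Complex.exp_conj, ← Complex.exp_add]
      congr 1
      rw [inner_sub_left]
      simp only [map_mul, Complex.conj_ofReal, Complex.conj_I, map_ofNat]
      push_cast
      ring
    rw [← e4, map_mul, Complex.conj_conj]
    ring
  rw [e2]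
  refine (norm_integral_le_integral_norm _).trans ?_
  have e5 : ∀ z : En n × En n, ‖∫ ξ, H ξ z‖ ≤
      kc c * |t| ^ (-((n : ℝ) / 2)) * (‖u z.1‖ * ‖v z.2‖) := by
    intro z
    rw [e3, norm_mul, norm_mul, RCLike.norm_conj, mul_comm]
    exact mul_le_mul_of_nonneg_right (kernel hc hb ht _) (by positivity)
  refine (integral_mono_of_nonneg (Eventually.of_forall fun z => norm_nonneg _)
    (hGG.const_mul _) (Eventually.of_forall e5)).trans (le_of_eq ?_)
  rw [integral_const_mul, integral_prod_mul (fun x => ‖u x‖) (fun y => ‖v y‖)]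

lemma J_l2 {n : ℕ} (c : Fin n → ℝ) {b : ℝ} (hb : 0 < b) (t : ℝ)
    {u v : En n → ℂ} (hu : Integrable u) (hv : Integrable v) :
    ‖J c b t u v‖ₑ ≤ (∫⁻ x, ‖u x‖ₑ ^ 2) ^ (1 / 2 : ℝ) * (∫⁻ x, ‖v x‖ₑ ^ 2) ^ (1 / 2 : ℝ) := by
  refine (enorm_integral_le_lintegral_enorm _).trans ?_
  have h1 : ∀ ξ : En n, ‖tp c (-t) ξ * (Fc u ξ * (starRingEnd ℂ) (Fc v ξ)) *
      ((rexp (-b * ‖ξ‖ ^ 2) : ℝ) : ℂ)‖ₑ ≤ ‖Fc u ξ‖ₑ * ‖Fc v ξ‖ₑ := by
    intro ξ
    rw [← ofReal_norm, ← ofReal_norm, ← ofReal_norm, ← ENNReal.ofReal_mul (norm_nonneg _)]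
    refine ENNReal.ofReal_le_ofReal ?_
    rw [norm_mul, norm_mul, norm_mul, RCLike.norm_conj, tp_norm, one_mul, Complex.norm_real,
      Real.norm_of_nonneg (exp_pos _).le]
    refine mul_le_of_le_one_right (by positivity) (Real.exp_le_one_iff.2 ?_)
    have := sq_nonneg ‖ξ‖
    nlinarith
  refine (lintegral_mono h1).trans ?_
  have h2 := ENNReal.lintegral_mul_le_Lp_mul_Lq (volume : Measure (En n))
    (show (2 : ℝ).HolderConjugate 2 from Real.HolderConjugate.two_two)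
    (f := fun ξ => ‖Fc u ξ‖ₑ) (g := fun ξ => ‖Fc v ξ‖ₑ)
    (Fc_cont hu).enorm.aemeasurable (Fc_cont hv).enorm.aemeasurable
  refine h2.trans ?_
  simp only [ENNReal.rpow_ofNat]
  exact mul_le_mul' (ENNReal.rpow_le_rpow (Fc_l2 hu) (by norm_num))
    (ENNReal.rpow_le_rpow (Fc_l2 hv) (by norm_num))

lemma kc_pos {n : ℕ} {c : Fin n → ℝ} (hc : ∀ j, c j ≠ 0) : 0 < kc c :=
  Finset.prod_pos fun j _ => Real.sqrt_pos.2 (div_pos pi_pos (abs_pos.2 (hc j)))

lemma int_of_le {n : ℕ} {u : En n → ℂ} (hum : Measurable u) {S : Set (En n)}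
    (hS : MeasurableSet S) (hSf : volume S ≠ ⊤) (hu : ∀ x, ‖u x‖ ≤ S.indicator (fun _ => (1 : ℝ)) x) :
    Integrable u := by
  have h1 : Integrable (S.indicator (fun _ => (1 : ℝ))) := by
    rw [integrable_indicator_iff hS]
    exact integrableOn_const hSf
  exact h1.mono' hum.aestronglyMeasurable (Eventually.of_forall hu)

lemma l2_le {n : ℕ} {u : En n → ℂ} {S : Set (En n)}
    (hS : MeasurableSet S) (hu : ∀ x, ‖u x‖ ≤ S.indicator (fun _ => (1 : ℝ)) x) :
    ∫⁻ x, ‖u x‖ₑ ^ 2 ≤ volume S := by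
  rw [← lintegral_indicator_one hS]
  refine lintegral_mono fun x => ?_
  have h := hu x
  by_cases hx : x ∈ S
  · rw [indicator_of_mem hx] at h ⊢
    rw [← ofReal_norm]
    have : ENNReal.ofReal ‖u x‖ ≤ 1 := by
      rw [← ENNReal.ofReal_one]
      exact ENNReal.ofReal_le_ofReal h
    simpa using pow_le_pow_left' this 2
  · rw [indicator_of_notMem hx] at h ⊢
    have h0 : ‖u x‖ = 0 := le_antisymm h (norm_nonneg _)
    rw [← ofReal_norm, h0]
    simp

lemma l1_le {n : ℕ} {u : En n → ℂ} (hum : Measurable u) {S : Set (En n)}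
    (hS : MeasurableSet S) (hSf : volume S ≠ ⊤) (hu : ∀ x, ‖u x‖ ≤ S.indicator (fun _ => (1 : ℝ)) x) :
    ∫ x, ‖u x‖ ≤ (volume S).toReal := by
  have h1 : Integrable (S.indicator (fun _ => (1 : ℝ))) := by
    rw [integrable_indicator_iff hS]
    exact integrableOn_const hSf
  refine (integral_mono (int_of_le hum hS hSf hu).norm h1 hu).trans (le_of_eq ?_)
  rw [integral_indicator hS]
  simp [Measure.real]

/-- the interpolated bound for functions bounded by one on sets of finite measure -/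
lemma J_mix {n : ℕ} (hn : 0 < n) {c : Fin n → ℝ} (hc : ∀ j, c j ≠ 0) {b : ℝ} (hb : 0 < b) {θ : ℝ}
    (h0 : 0 < θ) (h1 : θ < 1) (s s' : ℝ) {u v : En n → ℂ} (hum : Measurable u) (hvm : Measurable v)
    {S T : Set (En n)} (hS : MeasurableSet S) (hT : MeasurableSet T) (hSf : volume S ≠ ⊤)
    (hTf : volume T ≠ ⊤) (hu : ∀ x, ‖u x‖ ≤ S.indicator (fun _ => (1 : ℝ)) x)
    (hv : ∀ x, ‖v x‖ ≤ T.indicator (fun _ => (1 : ℝ)) x) :
    ‖J c b (s - s') u v‖ₑ ≤ ENNReal.ofReal (kc c) ^ θ *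
      ENNReal.ofReal |s - s'| ^ (-((n : ℝ) / 2) * θ) *
        (volume S ^ ((1 + θ) / 2) * volume T ^ ((1 + θ) / 2)) := by
  have hui := int_of_le hum hS hSf hu
  have hvi := int_of_le hvm hT hTf hv
  have hn' : (0 : ℝ) < n := by exact_mod_cast hn
  have hX : ‖J c b (s - s') u v‖ₑ ≤ volume S ^ (1 / 2 : ℝ) * volume T ^ (1 / 2 : ℝ) :=
    (J_l2 c hb _ hui hvi).trans (mul_le_mul' (ENNReal.rpow_le_rpow (l2_le hS hu) (by norm_num))
      (ENNReal.rpow_le_rpow (l2_le hT hv) (by norm_num)))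
  rcases eq_or_ne (volume S) 0 with hS0 | hS0
  · rw [hS0, ENNReal.zero_rpow_of_pos (by norm_num), zero_mul] at hX
    exact hX.trans bot_le
  rcases eq_or_ne (volume T) 0 with hT0 | hT0
  · rw [hT0, ENNReal.zero_rpow_of_pos (by norm_num), mul_zero] at hX
    exact hX.trans bot_le
  have hK0 : ENNReal.ofReal (kc c) ≠ 0 := by
    rw [Ne, ENNReal.ofReal_eq_zero, not_le]
    exact kc_pos hc
  rcases eq_or_ne s s' with hss | hss
  · have e : ENNReal.ofReal |s - s'| ^ (-((n : ℝ) / 2) * θ) = ⊤ := by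
      rw [hss, sub_self, abs_zero, ENNReal.ofReal_zero, ENNReal.zero_rpow_of_neg (by
        have : 0 < (n : ℝ) / 2 * θ := by positivity
        linarith)]
    rw [e, ENNReal.mul_top (by
      rw [Ne, ENNReal.rpow_eq_zero_iff]
      push Not
      exact ⟨fun h => absurd h hK0, fun h => absurd h ENNReal.ofReal_ne_top⟩), ENNReal.top_mul]
    · exact le_top
    · refine mul_ne_zero ?_ ?_
      · rw [Ne, ENNReal.rpow_eq_zero_iff]
        push Not
        exact ⟨fun h => absurd h hS0, fun h => absurd h hSf⟩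
      · rw [Ne, ENNReal.rpow_eq_zero_iff]
        push Not
        exact ⟨fun h => absurd h hT0, fun h => absurd h hTf⟩
  have ht : s - s' ≠ 0 := sub_ne_zero.2 hss
  have ht' : 0 < |s - s'| := abs_pos.2 ht
  have hY : ‖J c b (s - s') u v‖ₑ ≤ ENNReal.ofReal (kc c) *
      ENNReal.ofReal |s - s'| ^ (-((n : ℝ) / 2)) * (volume S * volume T) := by
    rw [← ofReal_norm]
    have h2 := J_disp hc hb ht hui hvi
    have h3 : ‖J c b (s - s') u v‖ ≤ kc c * |s - s'| ^ (-((n : ℝ) / 2)) *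
        ((volume S).toReal * (volume T).toReal) := by
      refine h2.trans (mul_le_mul_of_nonneg_left ?_ (by have := kc_nonneg c; positivity))
      exact mul_le_mul (l1_le hum hS hSf hu) (l1_le hvm hT hTf hv)
        (integral_nonneg fun _ => norm_nonneg _) ENNReal.toReal_nonneg
    refine (ENNReal.ofReal_le_ofReal h3).trans (le_of_eq ?_)
    rw [ENNReal.ofReal_mul (by have := kc_nonneg c; positivity), ENNReal.ofReal_mul (kc_nonneg c),
      ENNReal.ofReal_mul ENNReal.toReal_nonneg, ENNReal.ofReal_toReal hSf, ENNReal.ofReal_toReal hTf,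
      ENNReal.ofReal_rpow_of_pos ht']
  have hsplit : ‖J c b (s - s') u v‖ₑ = ‖J c b (s - s') u v‖ₑ ^ (1 - θ) *
      ‖J c b (s - s') u v‖ₑ ^ θ := by
    rw [← ENNReal.rpow_add_of_nonneg _ _ (by linarith) h0.le]
    simp
  rw [hsplit]
  refine (mul_le_mul' (ENNReal.rpow_le_rpow hX (by linarith))
    (ENNReal.rpow_le_rpow hY h0.le)).trans (le_of_eq ?_)
  have a1 : ∀ z : ℝ≥0∞, (z ^ (1 / 2 : ℝ)) ^ (1 - θ) * z ^ θ = z ^ ((1 + θ) / 2) := by
    intro z
    rw [← ENNReal.rpow_mul, ← ENNReal.rpow_add_of_nonneg _ _ (by nlinarith) h0.le]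
    congr 1
    ring
  rw [ENNReal.mul_rpow_of_nonneg _ _ (by linarith : (0 : ℝ) ≤ 1 - θ),
    ENNReal.mul_rpow_of_nonneg _ _ h0.le, ENNReal.mul_rpow_of_nonneg _ _ h0.le,
    ENNReal.mul_rpow_of_nonneg _ _ h0.le, ENNReal.rpow_mul, ← a1 (volume S), ← a1 (volume T)]
  ring

end Pool.Agent.W2helper73.SC
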