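import Mathlib
import Pool.Agent.W2helper73.SC.Jl

/-! The adjoint operator. -/

set_option autoImplicit false

open MeasureTheory Real Set Filter Topology
open scoped ENNReal RealInnerProductSpace

namespace Pool.Agent.W2helper73.SC

open Pool.Agent.Helper93.Sph (En ek ek_norm ek_cont gint)

section

variable {n : ℕ} {c : Fin n → ℝ} {μ : Measure ℝ} [IsFiniteMeasure μ]
  {Φ : ℝ × En n → ℂ} {A : Set (ℝ × En n)} {ρ : ℝ}

/-- the slices of the function at the time `s` -/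
abbrev sl (Φ : ℝ × En n → ℂ) (s : ℝ) (x : En n) : ℂ := Φ (s, x)

/-- the slice of the set -/
abbrev slA (A : Set (ℝ × En n)) (s : ℝ) : Set (En n) := Prod.mk s ⁻¹' A

lemma slA_meas (hA : MeasurableSet A) (s : ℝ) : MeasurableSet (slA A s) := measurable_prodMk_left hA

lemma slA_le (hρ : ∀ z ∈ A, ‖z.2‖ ≤ ρ) (s : ℝ) :
    volume (slA A s) ≤ volume (Metric.closedBall (0 : En n) ρ) :=
  measure_mono fun x hx => by simpa using hρ _ hx

lemma slA_fin (hρ : ∀ z ∈ A, ‖z.2‖ ≤ ρ) (s : ℝ) : volume (slA A s) ≠ ⊤ :=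
  ((slA_le hρ s).trans_lt measure_closedBall_lt_top).ne

lemma sl_le (hΦ : ∀ z, ‖Φ z‖ ≤ A.indicator (fun _ => (1 : ℝ)) z) (s : ℝ) (x : En n) :
    ‖sl Φ s x‖ ≤ (slA A s).indicator (fun _ => (1 : ℝ)) x := hΦ (s, x)

/-- the adjoint operator -/
noncomputable def TS (c : Fin n → ℝ) (μ : Measure ℝ) (Φ : ℝ × En n → ℂ) (ξ : En n) : ℂ :=
  ∫ s, tp c (-s) ξ * Fc (sl Φ s) ξ ∂μ

omit [IsFiniteMeasure μ] in
lemma g_meas (hΦm : Measurable Φ) :
    Measurable (fun z : ℝ × En n => tp c (-z.1) z.2 * Fc (sl Φ z.1) z.2) := by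
  have h1 : Measurable (fun z : ℝ × En n => tp c (-z.1) z.2) :=
    ((tp_cont c).comp (by fun_prop : Continuous fun z : ℝ × En n => (-z.1, z.2))).measurable
  have h2 : Measurable (fun p : (ℝ × En n) × En n =>
      (starRingEnd ℂ) (ek p.2 p.1.2) * Φ (p.1.1, p.2)) := by
    have a1 : Measurable (fun p : (ℝ × En n) × En n => (starRingEnd ℂ) (ek p.2 p.1.2)) :=
      (Complex.continuous_conj.comp (ek_cont.comp (by fun_prop :
        Continuous fun p : (ℝ × En n) × En n => (p.2, p.1.2)))).measurable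
    have a2 : Measurable (fun p : (ℝ × En n) × En n => Φ (p.1.1, p.2)) :=
      hΦm.comp (by fun_prop)
    exact a1.mul a2
  exact h1.mul (h2.stronglyMeasurable.integral_prod_right').measurable

lemma g_bdd (hΦm : Measurable Φ) (hA : MeasurableSet A) (hρ : ∀ z ∈ A, ‖z.2‖ ≤ ρ)
    (hΦ : ∀ z, ‖Φ z‖ ≤ A.indicator (fun _ => (1 : ℝ)) z) (s : ℝ) (ξ : En n) :
    ‖tp c (-s) ξ * Fc (sl Φ s) ξ‖ ≤ (volume (Metric.closedBall (0 : En n) ρ)).toReal := by
  rw [norm_mul, tp_norm, one_mul]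
  refine (Fc_bdd _ _).trans ((l1_le (hΦm.comp measurable_prodMk_left) (slA_meas hA s)
    (slA_fin hρ s) (sl_le hΦ s)).trans ?_)
  exact ENNReal.toReal_mono measure_closedBall_lt_top.ne (slA_le hρ s)

omit [IsFiniteMeasure μ] in
lemma tt_abs [IsFiniteMeasure μ] {g : ℝ → En n → ℂ} (hgm : Measurable (fun z : ℝ × En n => g z.1 z.2))
    {V : ℝ} (hgb : ∀ s ξ, ‖g s ξ‖ ≤ V) {b : ℝ} (hb : 0 < b) :
    ∫⁻ ξ, ENNReal.ofReal (‖∫ s, g s ξ ∂μ‖ ^ 2 * rexp (-b * ‖ξ‖ ^ 2)) ≤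
      ∫⁻ s, ∫⁻ s', ‖∫ ξ, g s ξ * (starRingEnd ℂ) (g s' ξ) * ((rexp (-b * ‖ξ‖ ^ 2) : ℝ) : ℂ)‖ₑ ∂μ ∂μ := by
  set w : En n → ℝ := fun x => rexp (-b * ‖x‖ ^ 2) with hw
  have hV0 : 0 ≤ V := (norm_nonneg _).trans (hgb 0 0)
  have hwi : Integrable w := gint hb
  set H : En n → ℝ × ℝ → ℂ := fun ξ z => g z.1 ξ * (starRingEnd ℂ) (g z.2 ξ) * (w ξ : ℂ) with hH
  have hHm : Measurable (Function.uncurry H) := by
    have m1 : Measurable (fun p : En n × (ℝ × ℝ) => g p.2.1 p.1) :=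
      hgm.comp (by fun_prop : Measurable fun p : En n × (ℝ × ℝ) => (p.2.1, p.1))
    have m2 : Measurable (fun p : En n × (ℝ × ℝ) => (starRingEnd ℂ) (g p.2.2 p.1)) :=
      Complex.continuous_conj.measurable.comp
        (hgm.comp (by fun_prop : Measurable fun p : En n × (ℝ × ℝ) => (p.2.2, p.1)))
    have m3 : Measurable (fun p : En n × (ℝ × ℝ) => (w p.1 : ℂ)) := by
      have : Continuous (fun p : En n × (ℝ × ℝ) => (w p.1 : ℂ)) := by
        rw [hw]; fun_prop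
      exact this.measurable
    exact (m1.mul m2).mul m3
  have hHn : ∀ x z, ‖H x z‖ ≤ w x * (V * V) := by
    intro x z
    rw [hH]
    simp only [norm_mul, RCLike.norm_conj, Complex.norm_real, hw,
      Real.norm_of_nonneg (exp_pos _).le]
    rw [mul_comm]
    exact mul_le_mul_of_nonneg_left (mul_le_mul (hgb _ _) (hgb _ _) (norm_nonneg _) hV0)
      (exp_pos _).le
  have hHi : Integrable (Function.uncurry H) (volume.prod (μ.prod μ)) := by
    have h1 : Integrable (fun p : En n × (ℝ × ℝ) => w p.1 * (V * V)) (volume.prod (μ.prod μ)) :=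
      hwi.mul_prod (integrable_const (V * V))
    refine h1.mono' hHm.aestronglyMeasurable (Eventually.of_forall fun p => ?_)
    exact hHn p.1 p.2
  have e1 : ∀ ξ, ((‖∫ s, g s ξ ∂μ‖ ^ 2 * w ξ : ℝ) : ℂ) = ∫ z : ℝ × ℝ, H ξ z ∂(μ.prod μ) := by
    intro ξ
    rw [hH]
    simp only
    rw [integral_mul_const, integral_prod_mul (fun s => g s ξ) (fun s => (starRingEnd ℂ) (g s ξ)),
      integral_conj, Complex.mul_conj, Complex.normSq_eq_norm_sq]
    push_cast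
    ring
  have e2 : ((∫ x, ‖∫ s, g s x ∂μ‖ ^ 2 * w x : ℝ) : ℂ) = ∫ z : ℝ × ℝ, (∫ x, H x z) ∂(μ.prod μ) := by
    rw [← integral_complex_ofReal]
    simp_rw [e1]
    exact integral_integral_swap hHi
  have hnn : ∀ x, 0 ≤ ‖∫ s, g s x ∂μ‖ ^ 2 * w x := fun x => by rw [hw]; positivity
  have hTi : Integrable (fun x => ‖∫ s, g s x ∂μ‖ ^ 2 * w x) := by
    have h2 := hHi.integral_prod_left
    have h3 : (fun x => ∫ z : ℝ × ℝ, Function.uncurry H (x, z) ∂(μ.prod μ)) =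
        fun x => ((‖∫ s, g s x ∂μ‖ ^ 2 * w x : ℝ) : ℂ) := by
      funext x
      rw [e1 x]
      rfl
    rw [h3] at h2
    exact_mod_cast h2.re
  rw [← ofReal_integral_eq_lintegral_ofReal hTi (Eventually.of_forall hnn)]
  have e4 : ENNReal.ofReal (∫ x, ‖∫ s, g s x ∂μ‖ ^ 2 * w x) =
      ‖((∫ x, ‖∫ s, g s x ∂μ‖ ^ 2 * w x : ℝ) : ℂ)‖ₑ := by
    rw [← ofReal_norm, Complex.norm_real, Real.norm_of_nonneg (integral_nonneg hnn)]
  rw [e4, e2]
  refine (enorm_integral_le_lintegral_enorm _).trans ?_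
  have hJm : AEMeasurable (fun z : ℝ × ℝ => ‖∫ x, H x z‖ₑ) (μ.prod μ) := by
    have h5 : Measurable (fun p : (ℝ × ℝ) × En n => H p.2 p.1) :=
      hHm.comp (by fun_prop : Measurable fun p : (ℝ × ℝ) × En n => (p.2, p.1))
    have h6 := (h5.stronglyMeasurable.integral_prod_right' (ν := volume)).measurable
    exact h6.enorm.aemeasurable
  rw [lintegral_prod _ hJm]

lemma ts_b (hΦm : Measurable Φ) (hA : MeasurableSet A) (hρ : ∀ z ∈ A, ‖z.2‖ ≤ ρ)
    (hΦ : ∀ z, ‖Φ z‖ ≤ A.indicator (fun _ => (1 : ℝ)) z) {b : ℝ} (hb : 0 < b) :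
    ∫⁻ ξ, ENNReal.ofReal (‖TS c μ Φ ξ‖ ^ 2 * rexp (-b * ‖ξ‖ ^ 2)) ≤
      ∫⁻ s, ∫⁻ s', ‖J c b (s - s') (sl Φ s) (sl Φ s')‖ₑ ∂μ ∂μ := by
  have h := tt_abs (μ := μ) (g := fun s ξ => tp c (-s) ξ * Fc (sl Φ s) ξ) (g_meas hΦm)
    (g_bdd hΦm hA hρ hΦ) hb
  refine h.trans (le_of_eq ?_)
  refine lintegral_congr fun s => lintegral_congr fun s' => ?_
  congr 1
  rw [J]
  refine integral_congr_ae (Eventually.of_forall fun ξ => ?_)
  simp only
  rw [map_mul, tp_conj, neg_neg, show -(s - s') = -s + s' by ring, ← tp_add]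
  ring

lemma slv_meas (hA : MeasurableSet A) : Measurable fun s => volume (slA A s) :=
  measurable_measure_prodMk_left hA

omit [IsFiniteMeasure μ] in
/-- the two applications of the Hölder inequality -/
lemma holder_two {V : ℝ → ℝ≥0∞} (hV : Measurable V) {k : ℝ → ℝ → ℝ≥0∞}
    (hk : ∀ s, Measurable (k s)) {q : ℝ} (hq : 1 < q) {M : ℝ≥0∞}
    (hM : ∀ s, ∫⁻ s', k s s' ^ (2 * q) ∂μ ≤ M) :
    ∫⁻ s, ∫⁻ s', k s s' * (V s ^ ((2 * q - 1) / (2 * q)) * V s' ^ ((2 * q - 1) / (2 * q))) ∂μ ∂μ ≤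
      M ^ (1 / (2 * q)) * μ univ ^ (1 / (2 * q)) * (∫⁻ s, V s ∂μ) ^ ((2 * q - 1) / q) := by
  set r : ℝ := (2 * q - 1) / (2 * q) with hr
  have hq0 : 0 < q := by linarith
  have hr0 : 0 < r := by rw [hr]; exact div_pos (by linarith) (by linarith)
  have hpq : (2 * q).HolderConjugate (r⁻¹) := by
    rw [Real.holderConjugate_iff]
    refine ⟨by linarith, ?_⟩
    rw [inv_inv, hr]
    field_simp
    ring
  have hVr : Measurable fun s => V s ^ r := hV.pow_const r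
  have hVr' : ∀ s, (V s ^ r) ^ r⁻¹ = V s := fun s => by
    rw [← ENNReal.rpow_mul, mul_inv_cancel₀ hr0.ne', ENNReal.rpow_one]
  have inner : ∀ s, ∫⁻ s', k s s' * V s' ^ r ∂μ ≤ M ^ (1 / (2 * q)) * (∫⁻ s, V s ∂μ) ^ r := by
    intro s
    have h := ENNReal.lintegral_mul_le_Lp_mul_Lq μ hpq (f := k s) (g := fun s' => V s' ^ r)
      (hk s).aemeasurable hVr.aemeasurable
    simp only [Pi.mul_apply, hVr', one_div, inv_inv] at h
    refine h.trans (mul_le_mul' ?_ le_rfl)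
    rw [one_div]
    exact ENNReal.rpow_le_rpow (hM s) (by positivity)
  have outer : ∫⁻ s, V s ^ r ∂μ ≤ μ univ ^ (1 / (2 * q)) * (∫⁻ s, V s ∂μ) ^ r := by
    have h := ENNReal.lintegral_mul_le_Lp_mul_Lq μ hpq (f := fun _ => 1) (g := fun s' => V s' ^ r)
      aemeasurable_const hVr.aemeasurable
    simpa only [Pi.mul_apply, hVr', one_div, inv_inv, one_mul, ENNReal.one_rpow, lintegral_one] using h
  calc ∫⁻ s, ∫⁻ s', k s s' * (V s ^ r * V s' ^ r) ∂μ ∂μ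
      = ∫⁻ s, V s ^ r * ∫⁻ s', k s s' * V s' ^ r ∂μ ∂μ := by
        refine lintegral_congr fun s => ?_
        rw [← lintegral_const_mul (V s ^ r) (f := fun s' => k s s' * V s' ^ r) ((hk s).mul hVr)]
        refine lintegral_congr fun s' => ?_
        ring
    _ ≤ ∫⁻ s, V s ^ r * (M ^ (1 / (2 * q)) * (∫⁻ s, V s ∂μ) ^ r) ∂μ :=
        lintegral_mono fun s => mul_le_mul' le_rfl (inner s)
    _ = (∫⁻ s, V s ^ r ∂μ) * (M ^ (1 / (2 * q)) * (∫⁻ s, V s ∂μ) ^ r) :=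
        lintegral_mul_const _ hVr
    _ ≤ μ univ ^ (1 / (2 * q)) * (∫⁻ s, V s ∂μ) ^ r * (M ^ (1 / (2 * q)) * (∫⁻ s, V s ∂μ) ^ r) :=
        mul_le_mul' outer le_rfl
    _ = M ^ (1 / (2 * q)) * μ univ ^ (1 / (2 * q)) *
          ((∫⁻ s, V s ∂μ) ^ r * (∫⁻ s, V s ∂μ) ^ r) := by ring
    _ = _ := by
        rw [← ENNReal.rpow_add_of_nonneg _ _ hr0.le hr0.le]
        congr 2
        rw [hr]
        field_simp
        ring

/-- the bound of the adjoint operator -/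
lemma ts_l2 (hn : 0 < n) (hc : ∀ j, c j ≠ 0) (hΦm : Measurable Φ) (hA : MeasurableSet A)
    (hρ : ∀ z ∈ A, ‖z.2‖ ≤ ρ) (hΦ : ∀ z, ‖Φ z‖ ≤ A.indicator (fun _ => (1 : ℝ)) z)
    {q : ℝ} (hq : 1 < q) {M : ℝ≥0∞}
    (hM : ∀ s, ∫⁻ s', ENNReal.ofReal |s - s'| ^ (-((n : ℝ) * (q - 1))) ∂μ ≤ M) :
    ∫⁻ ξ, ‖TS c μ Φ ξ‖ₑ ^ 2 ≤ ENNReal.ofReal (kc c) ^ ((q - 1) / q) *
      (M ^ (1 / (2 * q)) * μ univ ^ (1 / (2 * q)) *
        (μ.prod volume) A ^ ((2 * q - 1) / q)) := by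
  have hq0 : 0 < q := by linarith
  set θ : ℝ := (q - 1) / q with hθ
  have hθ0 : 0 < θ := div_pos (by linarith) hq0
  have hθ1 : θ < 1 := by rw [hθ, div_lt_one hq0]; linarith
  have hbound : ∀ b : ℝ, 0 < b →
      ∫⁻ ξ, ENNReal.ofReal (‖TS c μ Φ ξ‖ ^ 2 * rexp (-b * ‖ξ‖ ^ 2)) ≤
      ENNReal.ofReal (kc c) ^ θ * (M ^ (1 / (2 * q)) * μ univ ^ (1 / (2 * q)) *
        (μ.prod volume) A ^ ((2 * q - 1) / q)) := by
    intro b hb
    refine (ts_b hΦm hA hρ hΦ hb).trans ?_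
    have h1 : ∀ s s', ‖J c b (s - s') (sl Φ s) (sl Φ s')‖ₑ ≤ ENNReal.ofReal (kc c) ^ θ *
        (ENNReal.ofReal |s - s'| ^ (-((n : ℝ) / 2) * θ) *
          (volume (slA A s) ^ ((2 * q - 1) / (2 * q)) *
            volume (slA A s') ^ ((2 * q - 1) / (2 * q)))) := by
      intro s s'
      refine (J_mix hn hc hb hθ0 hθ1 s s' (hΦm.comp measurable_prodMk_left)
        (hΦm.comp measurable_prodMk_left) (slA_meas hA s) (slA_meas hA s') (slA_fin hρ s)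
        (slA_fin hρ s') (sl_le hΦ s) (sl_le hΦ s')).trans (le_of_eq ?_)
      have e : (1 + θ) / 2 = (2 * q - 1) / (2 * q) := by
        rw [hθ]; field_simp; ring
      rw [e, mul_assoc]
    have hkm : ∀ s : ℝ, Measurable fun s' : ℝ =>
        ENNReal.ofReal |s - s'| ^ (-((n : ℝ) / 2) * θ) := fun s => by
      fun_prop
    refine (lintegral_mono fun s => lintegral_mono fun s' => h1 s s').trans ?_
    have hK : ENNReal.ofReal (kc c) ^ θ ≠ ⊤ :=
      ENNReal.rpow_ne_top_of_nonneg hθ0.le ENNReal.ofReal_ne_top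
    simp_rw [lintegral_const_mul' _ _ hK]
    refine mul_le_mul' le_rfl ?_
    rw [Measure.prod_apply hA]
    refine holder_two (slv_meas hA) hkm hq fun s => ?_
    refine le_trans (le_of_eq ?_) (hM s)
    refine lintegral_congr fun s' => ?_
    rw [← ENNReal.rpow_mul]
    congr 1
    rw [hθ]
    field_simp
  have hlim : ∀ x : En n, ‖TS c μ Φ x‖ₑ ^ 2 = liminf (fun k : ℕ =>
      ENNReal.ofReal (‖TS c μ Φ x‖ ^ 2 * rexp (-(1 / ((k : ℝ) + 1)) * ‖x‖ ^ 2))) atTop := by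
    intro x
    have h1 : Tendsto (fun k : ℕ => ‖TS c μ Φ x‖ ^ 2 * rexp (-(1 / ((k : ℝ) + 1)) * ‖x‖ ^ 2)) atTop
        (𝓝 (‖TS c μ Φ x‖ ^ 2 * rexp (-0 * ‖x‖ ^ 2))) := by
      refine Tendsto.const_mul _ ?_
      refine (Real.continuous_exp.tendsto _).comp ?_
      exact (tendsto_one_div_add_atTop_nhds_zero_nat.neg).mul_const _
    have h2 := (ENNReal.tendsto_ofReal h1).liminf_eq
    rw [h2]
    simp only [neg_zero, zero_mul, Real.exp_zero, mul_one]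
    rw [ENNReal.ofReal_pow (norm_nonneg _), ofReal_norm]
  have hTm : Measurable (TS c μ Φ) :=
    ((g_meas (c := c) hΦm).comp measurable_swap).stronglyMeasurable.integral_prod_right'.measurable
  simp_rw [hlim]
  refine (lintegral_liminf_le' fun k => ?_).trans ?_
  · refine AEMeasurable.ennreal_ofReal (Measurable.aemeasurable ?_)
    exact (hTm.norm.pow_const 2).mul (by fun_prop)
  · refine liminf_le_of_frequently_le' (Frequently.of_forall fun k => ?_)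
    exact hbound _ (by positivity)

end

end Pool.Agent.W2helper73.SC
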