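import Mathlib
import Pool.Agent.W2helper73.SC.Ts

/-! The weak type bound for one set, by duality. -/

set_option autoImplicit false

open MeasureTheory Real Set Filter Topology
open scoped ENNReal RealInnerProductSpace

namespace Pool.Agent.W2helper73.SC

open Pool.Agent.Helper93.Sph (En ek ek_norm ek_cont gint piece_int)

/-- the mass of the function on the set -/
noncomputable def mass {n : ℕ} (G : En n → ℂ) (D : Set (En n)) : ℝ≥0∞ := ∫⁻ ξ in D, ‖G ξ‖ₑ ^ 2

/-- the part of the flow with the frequencies in `D` -/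
noncomputable def W {n : ℕ} (c : Fin n → ℝ) (G : En n → ℂ) (D : Set (En n)) (z : ℝ × En n) : ℂ :=
  ∫ ξ in D, ek z.2 ξ * (tp c z.1 ξ * G ξ)

section

variable {n : ℕ} {c : Fin n → ℝ} {G : En n → ℂ} {D : Set (En n)}

lemma ek_c1 (x : En n) : Continuous (fun ξ : En n => ek x ξ) :=
  ek_cont.comp (by fun_prop : Continuous fun ξ : En n => (x, ξ))

lemma ek_c2 (ξ : En n) : Continuous (fun z : ℝ × En n => ek z.2 ξ) :=
  ek_cont.comp (by fun_prop : Continuous fun z : ℝ × En n => (z.2, ξ))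

lemma tp_c1 (s : ℝ) : Continuous (fun ξ : En n => tp c s ξ) :=
  (tp_cont c).comp (by fun_prop : Continuous fun ξ : En n => (s, ξ))

lemma tp_c2 (ξ : En n) : Continuous (fun z : ℝ × En n => tp c z.1 ξ) :=
  (tp_cont c).comp (by fun_prop : Continuous fun z : ℝ × En n => (z.1, ξ))

lemma W_eq (hD : MeasurableSet D) (z : ℝ × En n) :
    W c G D z = ∫ ξ, ek z.2 ξ * (tp c z.1 ξ * D.indicator G ξ) := by
  rw [W, ← integral_indicator hD]
  refine integral_congr_ae (Eventually.of_forall fun ξ => ?_)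
  by_cases h : ξ ∈ D
  · simp only [indicator_of_mem h]
  · simp only [indicator_of_notMem h, mul_zero]

lemma W_cont (hG : MemLp G 2) (hD : MeasurableSet D) (hv : volume D < ⊤) :
    Continuous (W c G D) := by
  have hi := piece_int hG hD hv
  have : W c G D = fun z => ∫ ξ, ek z.2 ξ * (tp c z.1 ξ * D.indicator G ξ) :=
    funext fun z => W_eq hD z
  rw [this]
  refine continuous_of_dominated (bound := fun ξ => ‖D.indicator G ξ‖) ?_ ?_ hi.norm ?_
  · intro z
    exact (ek_c1 z.2).aestronglyMeasurable.mul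
      ((tp_c1 z.1).aestronglyMeasurable.mul hi.aestronglyMeasurable)
  · intro z
    refine Eventually.of_forall fun ξ => ?_
    rw [norm_mul, norm_mul, ek_norm, tp_norm, one_mul, one_mul]
  · refine Eventually.of_forall fun ξ => ?_
    exact (ek_c2 ξ).mul ((tp_c2 ξ).mul continuous_const)

/-- the duality -/
lemma dual {μ : Measure ℝ} [IsFiniteMeasure μ] (hG : MemLp G 2) (hD : MeasurableSet D)
    (hv : volume D < ⊤) {Φ : ℝ × En n → ℂ} {A : Set (ℝ × En n)} (hΦm : Measurable Φ)
    (hA : MeasurableSet A) (hAf : (μ.prod volume) A ≠ ⊤)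
    (hΦ : ∀ z, ‖Φ z‖ ≤ A.indicator (fun _ => (1 : ℝ)) z) :
    ‖∫ z, (starRingEnd ℂ) (Φ z) * W c G D z ∂(μ.prod volume)‖ₑ ≤
      mass G D ^ (1 / 2 : ℝ) * (∫⁻ ξ, ‖TS c μ Φ ξ‖ₑ ^ 2) ^ (1 / 2 : ℝ) := by
  have hi := piece_int hG hD hv
  set F : En n → ℂ := D.indicator G with hF
  have hΦi : Integrable Φ (μ.prod volume) := by
    have h1 : Integrable (A.indicator (fun _ => (1 : ℝ))) (μ.prod volume) := by
      rw [integrable_indicator_iff hA]
      exact integrableOn_const hAf
    exact h1.mono' hΦm.aestronglyMeasurable (Eventually.of_forall hΦ)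
  set H : (ℝ × En n) → En n → ℂ := fun z ξ =>
    (starRingEnd ℂ) (Φ z) * (ek z.2 ξ * (tp c z.1 ξ * F ξ)) with hH
  have hHm : AEStronglyMeasurable (Function.uncurry H) ((μ.prod volume).prod volume) := by
    have c1 : AEStronglyMeasurable (fun p : (ℝ × En n) × En n => ek p.1.2 p.2)
        ((μ.prod volume).prod volume) :=
      (ek_cont.comp (by fun_prop :
        Continuous fun p : (ℝ × En n) × En n => (p.1.2, p.2))).aestronglyMeasurable
    have c2 : AEStronglyMeasurable (fun p : (ℝ × En n) × En n => tp c p.1.1 p.2)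
        ((μ.prod volume).prod volume) :=
      ((tp_cont c).comp (by fun_prop :
        Continuous fun p : (ℝ × En n) × En n => (p.1.1, p.2))).aestronglyMeasurable
    have c3 : AEStronglyMeasurable (fun p : (ℝ × En n) × En n => (starRingEnd ℂ) (Φ p.1))
        ((μ.prod volume).prod volume) :=
      (Complex.continuous_conj.measurable.comp (hΦm.comp measurable_fst)).aestronglyMeasurable
    have c4 : AEStronglyMeasurable (fun p : (ℝ × En n) × En n => F p.2)
        ((μ.prod volume).prod volume) := hi.aestronglyMeasurable.comp_snd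
    exact c3.mul (c1.mul (c2.mul c4))
  have hHi : Integrable (Function.uncurry H) ((μ.prod volume).prod volume) := by
    have h1 : Integrable (fun p : (ℝ × En n) × En n => ‖Φ p.1‖ * ‖F p.2‖)
        ((μ.prod volume).prod volume) := hΦi.norm.mul_prod hi.norm
    refine h1.mono' hHm (Eventually.of_forall fun p => le_of_eq ?_)
    simp only [Function.uncurry, hH, norm_mul, RCLike.norm_conj, ek_norm, tp_norm, one_mul]
  have e1 : ∫ z, (starRingEnd ℂ) (Φ z) * W c G D z ∂(μ.prod volume) =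
      ∫ z, (∫ ξ, H z ξ) ∂(μ.prod volume) := by
    refine integral_congr_ae (Eventually.of_forall fun z => ?_)
    simp only [hH]
    rw [integral_const_mul, W_eq hD]
  have e2 : ∀ ξ, Integrable (fun z => H z ξ) (μ.prod volume) := by
    intro ξ
    have h1 : Continuous (fun z : ℝ × En n => ek z.2 ξ * (tp c z.1 ξ * F ξ)) := by
      exact (ek_c2 ξ).mul ((tp_c2 ξ).mul continuous_const)
    refine (hΦi.norm.mul_const ‖F ξ‖).mono' ?_ (Eventually.of_forall fun z => le_of_eq ?_)
    · exact (Complex.continuous_conj.measurable.comp hΦm).aestronglyMeasurable.mul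
        h1.aestronglyMeasurable
    · simp only [hH, norm_mul, RCLike.norm_conj, ek_norm, tp_norm, one_mul]
  have e3 : ∀ ξ, ∫ z, H z ξ ∂(μ.prod volume) = F ξ * (starRingEnd ℂ) (TS c μ Φ ξ) := by
    intro ξ
    rw [integral_prod _ (e2 ξ), TS, ← integral_conj, ← integral_const_mul]
    refine integral_congr_ae (Eventually.of_forall fun s => ?_)
    simp only [hH]
    rw [map_mul, tp_conj, neg_neg, Fc, ← integral_conj, ← integral_const_mul, ← integral_const_mul]
    refine integral_congr_ae (Eventually.of_forall fun x => ?_)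
    simp only [map_mul, Complex.conj_conj, sl]
    ring
  rw [e1, integral_integral_swap hHi]
  simp_rw [e3]
  refine (enorm_integral_le_lintegral_enorm _).trans ?_
  have hTm : Measurable (TS c μ Φ) :=
    ((g_meas (c := c) hΦm).comp measurable_swap).stronglyMeasurable.integral_prod_right'.measurable
  have h2 := ENNReal.lintegral_mul_le_Lp_mul_Lq (volume : Measure (En n))
    (show (2 : ℝ).HolderConjugate 2 from Real.HolderConjugate.two_two)
    (f := fun ξ => ‖F ξ‖ₑ) (g := fun ξ => ‖TS c μ Φ ξ‖ₑ)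
    hi.aestronglyMeasurable.enorm hTm.enorm.aemeasurable
  have e4 : ∀ ξ, ‖F ξ * (starRingEnd ℂ) (TS c μ Φ ξ)‖ₑ = ‖F ξ‖ₑ * ‖TS c μ Φ ξ‖ₑ := by
    intro ξ
    rw [enorm_mul, ← ofReal_norm ((starRingEnd ℂ) (TS c μ Φ ξ)), RCLike.norm_conj, ofReal_norm]
  simp_rw [e4]
  refine h2.trans ?_
  simp only [ENNReal.rpow_ofNat]
  refine mul_le_mul' (ENNReal.rpow_le_rpow (le_of_eq ?_) (by norm_num)) le_rfl
  rw [mass, ← lintegral_indicator hD]
  refine lintegral_congr fun ξ => ?_
  by_cases h : ξ ∈ D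
  · rw [hF, indicator_of_mem h, indicator_of_mem h]
  · rw [hF, indicator_of_notMem h, indicator_of_notMem h]; simp

/-- from the bound of the level set in terms of itself to the weak type bound -/
lemma absorb {a X l : ℝ≥0∞} {q : ℝ} (hq : 1 < q) (ha : a ≠ ⊤) (hl : l ≠ 0) (hl' : l ≠ ⊤)
    (h : l * a ≤ X * a ^ (1 - 1 / (2 * q))) : a ≤ X ^ (2 * q) / l ^ (2 * q) := by
  rcases eq_or_ne a 0 with h0 | h0
  · rw [h0]; exact bot_le
  have hq0 : 0 < 2 * q := by linarith
  have e : a = a ^ (1 / (2 * q)) * a ^ (1 - 1 / (2 * q)) := by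
    rw [← ENNReal.rpow_add _ _ h0 ha]
    simp
  have hp0 : a ^ (1 - 1 / (2 * q)) ≠ 0 := by
    rw [Ne, ENNReal.rpow_eq_zero_iff]
    push Not
    exact ⟨fun h => absurd h h0, fun h => absurd h ha⟩
  have hpt : a ^ (1 - 1 / (2 * q)) ≠ ⊤ := by
    rw [Ne, ENNReal.rpow_eq_top_iff]
    push Not
    exact ⟨fun h => absurd h h0, fun h => absurd h ha⟩
  have h1 : l * a ^ (1 / (2 * q)) ≤ X := by
    rw [← ENNReal.mul_le_mul_iff_left hp0 hpt, mul_assoc, ← e]
    exact h
  have h2 := ENNReal.rpow_le_rpow h1 hq0.le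
  rw [ENNReal.mul_rpow_of_nonneg _ _ hq0.le, ← ENNReal.rpow_mul, one_div, inv_mul_cancel₀ hq0.ne',
    ENNReal.rpow_one, mul_comm] at h2
  rw [ENNReal.le_div_iff_mul_le]
  · exact h2
  · left
    rw [Ne, ENNReal.rpow_eq_zero_iff]
    push Not
    exact ⟨fun h => absurd h hl, fun h => absurd h hl'⟩
  · left
    exact ENNReal.rpow_ne_top_of_nonneg hq0.le hl'

/-- the constant of the weak type bound -/
noncomputable def Q0 {n : ℕ} (c : Fin n → ℝ) (μ : Measure ℝ) (M : ℝ≥0∞) (q : ℝ) : ℝ≥0∞ :=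
  ENNReal.ofReal (kc c) ^ (q - 1) * (M * μ univ) ^ (1 / 2 : ℝ)

lemma wk_rho {μ : Measure ℝ} [IsFiniteMeasure μ] (hn : 0 < n) (hc : ∀ j, c j ≠ 0)
    (hG : MemLp G 2) (hD : MeasurableSet D) (hv : volume D < ⊤) {q : ℝ} (hq : 1 < q) {M : ℝ≥0∞}
    (hM : ∀ s, ∫⁻ s', ENNReal.ofReal |s - s'| ^ (-((n : ℝ) * (q - 1))) ∂μ ≤ M) {l : ℝ} (hl : 0 < l)
    (ρ : ℝ) :
    (μ.prod volume) {z : ℝ × En n | ‖z.2‖ ≤ ρ ∧ l < ‖W c G D z‖} ≤
      Q0 c μ M q * (mass G D / ENNReal.ofReal l ^ 2) ^ q := by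
  have hWc := W_cont (c := c) hG hD hv
  set A : Set (ℝ × En n) := {z : ℝ × En n | ‖z.2‖ ≤ ρ ∧ l < ‖W c G D z‖} with hAdef
  have hA : MeasurableSet A := by
    have m1 : MeasurableSet {z : ℝ × En n | ‖z.2‖ ≤ ρ} :=
      measurableSet_le measurable_snd.norm measurable_const
    have m2 : MeasurableSet {z : ℝ × En n | l < ‖W c G D z‖} :=
      measurableSet_lt measurable_const hWc.norm.measurable
    exact m1.inter m2
  have hρ : ∀ z ∈ A, ‖z.2‖ ≤ ρ := fun z hz => hz.1
  have hAf : (μ.prod volume) A ≠ ⊤ := by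
    have h1 : A ⊆ univ ×ˢ Metric.closedBall (0 : En n) ρ := fun z hz =>
      ⟨mem_univ _, by simpa using hρ z hz⟩
    refine ((measure_mono h1).trans_lt ?_).ne
    rw [Measure.prod_prod]
    exact ENNReal.mul_lt_top (measure_lt_top _ _) measure_closedBall_lt_top
  set Φ : ℝ × En n → ℂ := A.indicator (fun z => W c G D z / (‖W c G D z‖ : ℂ)) with hΦdef
  have hΦm : Measurable Φ := by
    refine Measurable.indicator ?_ hA
    exact hWc.measurable.div (Complex.continuous_ofReal.comp hWc.norm).measurable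
  have hΦ : ∀ z, ‖Φ z‖ ≤ A.indicator (fun _ => (1 : ℝ)) z := by
    intro z
    by_cases h : z ∈ A
    · rw [hΦdef, indicator_of_mem h, indicator_of_mem h, norm_div, Complex.norm_real, norm_norm]
      exact div_self_le_one _
    · rw [hΦdef, indicator_of_notMem h, indicator_of_notMem h, norm_zero]
  have hd := dual (c := c) (μ := μ) hG hD hv hΦm hA hAf hΦ
  have e1 : ∀ z, (starRingEnd ℂ) (Φ z) * W c G D z =
      ((A.indicator (fun z => ‖W c G D z‖) z : ℝ) : ℂ) := by
    intro z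
    by_cases h : z ∈ A
    · rw [hΦdef, indicator_of_mem h, indicator_of_mem h]
      have h0 : (‖W c G D z‖ : ℂ) ≠ 0 := by
        have := hl.trans h.2
        exact_mod_cast this.ne'
      rw [map_div₀, Complex.conj_ofReal, div_mul_eq_mul_div, Complex.conj_mul', sq,
        mul_div_assoc, div_self h0, mul_one]
    · rw [hΦdef, indicator_of_notMem h, indicator_of_notMem h]
      simp
  simp_rw [e1] at hd
  rw [integral_complex_ofReal] at hd
  have hbd : ∀ z, ‖W c G D z‖ ≤ ∫ ξ, ‖D.indicator G ξ‖ := by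
    intro z
    rw [W_eq hD]
    refine (norm_integral_le_integral_norm _).trans (le_of_eq ?_)
    refine integral_congr_ae (Eventually.of_forall fun ξ => ?_)
    simp only [norm_mul, ek_norm, tp_norm, one_mul]
  have hi1 : Integrable (A.indicator (fun z => ‖W c G D z‖)) (μ.prod volume) := by
    rw [integrable_indicator_iff hA]
    refine Integrable.mono' (g := fun _ => ∫ ξ, ‖D.indicator G ξ‖) (integrableOn_const hAf)
      hWc.norm.aestronglyMeasurable (Eventually.of_forall fun z => ?_)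
    rw [norm_norm]
    exact hbd z
  have hi2 : Integrable (A.indicator (fun _ => l)) (μ.prod volume) := by
    rw [integrable_indicator_iff hA]
    exact integrableOn_const hAf
  have hlow : ENNReal.ofReal l * (μ.prod volume) A ≤
      ‖((∫ z, A.indicator (fun z => ‖W c G D z‖) z ∂(μ.prod volume) : ℝ) : ℂ)‖ₑ := by
    have h1 : l * ((μ.prod volume) A).toReal ≤
        ∫ z, A.indicator (fun z => ‖W c G D z‖) z ∂(μ.prod volume) := by
      have h2 : ∫ z, A.indicator (fun _ => l) z ∂(μ.prod volume) = l * ((μ.prod volume) A).toReal := by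
        rw [integral_indicator hA]
        simp [Measure.real, mul_comm]
      rw [← h2]
      refine integral_mono hi2 hi1 fun z => ?_
      by_cases h : z ∈ A
      · rw [indicator_of_mem h, indicator_of_mem h]; exact h.2.le
      · rw [indicator_of_notMem h, indicator_of_notMem h]
    rw [← ofReal_norm, Complex.norm_real]
    calc ENNReal.ofReal l * (μ.prod volume) A = ENNReal.ofReal (l * ((μ.prod volume) A).toReal) := by
          rw [ENNReal.ofReal_mul hl.le, ENNReal.ofReal_toReal hAf]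
      _ ≤ _ := ENNReal.ofReal_le_ofReal (h1.trans (le_abs_self _))
  have hts := ts_l2 (c := c) (μ := μ) hn hc hΦm hA hρ hΦ hq hM
  have hq0 : 0 < q := by linarith
  have h5 : ENNReal.ofReal l * (μ.prod volume) A ≤
      (mass G D ^ (1 / 2 : ℝ) * (ENNReal.ofReal (kc c) ^ ((q - 1) / q) *
        (M ^ (1 / (2 * q)) * μ univ ^ (1 / (2 * q)))) ^ (1 / 2 : ℝ)) *
        (μ.prod volume) A ^ (1 - 1 / (2 * q)) := by
    refine (hlow.trans hd).trans ?_
    rw [mul_assoc]
    refine mul_le_mul' le_rfl ((ENNReal.rpow_le_rpow hts (by norm_num)).trans (le_of_eq ?_))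
    rw [← mul_assoc, ENNReal.mul_rpow_of_nonneg _ _ (by norm_num), ← ENNReal.rpow_mul]
    congr 2
    field_simp
  have h6 := absorb hq hAf (by rwa [Ne, ENNReal.ofReal_eq_zero, not_le]) ENNReal.ofReal_ne_top h5
  refine h6.trans (le_of_eq ?_)
  have hK : (ENNReal.ofReal (kc c) ^ ((q - 1) / q)) ^ q = ENNReal.ofReal (kc c) ^ (q - 1) := by
    rw [← ENNReal.rpow_mul]
    congr 1
    field_simp
  have hMM : ∀ x : ℝ≥0∞, (x ^ (1 / (2 * q))) ^ q = x ^ (1 / 2 : ℝ) := fun x => by
    rw [← ENNReal.rpow_mul]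
    congr 1
    field_simp
  rw [Q0, ENNReal.div_rpow_of_nonneg _ _ hq0.le, ENNReal.mul_rpow_of_nonneg _ _ (by linarith : 0 ≤ 2 * q),
    ← ENNReal.rpow_mul, ← ENNReal.rpow_mul, show 1 / 2 * (2 * q) = q by ring,
    ENNReal.mul_rpow_of_nonneg _ _ hq0.le, ENNReal.mul_rpow_of_nonneg _ _ hq0.le, hK, hMM, hMM,
    ENNReal.mul_rpow_of_nonneg _ _ (by norm_num : (0 : ℝ) ≤ 1 / 2),
    show (ENNReal.ofReal l ^ 2 : ℝ≥0∞) ^ q = ENNReal.ofReal l ^ (2 * q) by
      rw [← ENNReal.rpow_natCast, ← ENNReal.rpow_mul]; norm_num]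
  simp only [div_eq_mul_inv]
  ring

/-- the weak type bound for one set -/
lemma wk {μ : Measure ℝ} [IsFiniteMeasure μ] (hn : 0 < n) (hc : ∀ j, c j ≠ 0)
    (hG : MemLp G 2) (hD : MeasurableSet D) (hv : volume D < ⊤) {q : ℝ} (hq : 1 < q) {M : ℝ≥0∞}
    (hM : ∀ s, ∫⁻ s', ENNReal.ofReal |s - s'| ^ (-((n : ℝ) * (q - 1))) ∂μ ≤ M) {l : ℝ} (hl : 0 < l) :
    (μ.prod volume) {z : ℝ × En n | l < ‖W c G D z‖} ≤
      Q0 c μ M q * (mass G D / ENNReal.ofReal l ^ 2) ^ q := by
  have e : {z : ℝ × En n | l < ‖W c G D z‖} =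
      ⋃ N : ℕ, {z : ℝ × En n | ‖z.2‖ ≤ N ∧ l < ‖W c G D z‖} := by
    ext z
    simp only [mem_ofPred_eq, mem_iUnion, exists_and_right]
    refine ⟨fun h => ⟨exists_nat_ge _, h⟩, fun h => h.2⟩
  rw [e, Monotone.measure_iUnion]
  · exact iSup_le fun N => wk_rho hn hc hG hD hv hq hM hl N
  · intro a b hab z hz
    exact ⟨hz.1.trans (by exact_mod_cast hab), hz.2⟩

end

end Pool.Agent.W2helper73.SC
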