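import Mathlib
import Pool.Agent.W2helper73.SC.Dl

/-! The maximal inequality, by the chaining of Christ and Kiselev. -/

set_option autoImplicit false

open MeasureTheory Real Set Filter Topology
open scoped ENNReal RealInnerProductSpace

namespace Pool.Agent.W2helper73.SC

open Pool.Agent.Helper93.Sph (En ek ek_norm ek_cont gint piece_int)

section

variable {n : ℕ} {c : Fin n → ℝ} {G : En n → ℂ}

lemma mass_mono {D E : Set (En n)} (h : D ⊆ E) : mass G D ≤ mass G E :=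
  lintegral_mono_set h

lemma mass_diff {D E : Set (En n)} (hD : MeasurableSet D) (h : D ⊆ E) :
    mass G D + mass G (E \ D) = mass G E := by
  have := lintegral_inter_add_sdiff (μ := volume) (fun ξ => ‖G ξ‖ₑ ^ 2) E hD
  rwa [inter_eq_right.2 h] at this

lemma mass_univ (hG : MemLp G 2) : mass G univ < ⊤ := by
  have h := hG.eLpNorm_lt_top
  rw [eLpNorm_lt_top_iff_lintegral_rpow_enorm_lt_top (by norm_num) (by norm_num)] at h
  simpa [mass] using h

lemma mass_lt (hG : MemLp G 2) (D : Set (En n)) : mass G D < ⊤ :=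
  (mass_mono (subset_univ D)).trans_lt (mass_univ hG)

lemma W_diff (hG : MemLp G 2) {D E : Set (En n)} (hD : MeasurableSet D) (hE : MeasurableSet E)
    (hv : volume E < ⊤) (h : D ⊆ E) (z : ℝ × En n) :
    W c G E z = W c G D z + W c G (E \ D) z := by
  have hi : IntegrableOn (fun ξ => ek z.2 ξ * (tp c z.1 ξ * G ξ)) E := by
    have h0 : IntegrableOn G E := by
      have := piece_int hG hE hv
      rwa [integrable_indicator_iff hE] at this
    refine h0.norm.mono' ?_ (Eventually.of_forall fun ξ => le_of_eq ?_)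
    · exact (ek_c1 z.2).aestronglyMeasurable.mul
        ((tp_c1 z.1).aestronglyMeasurable.mul h0.aestronglyMeasurable)
    · rw [norm_mul, norm_mul, ek_norm, tp_norm, one_mul, one_mul]
  have h1 := integral_inter_add_sdiff hD hi
  rw [inter_eq_right.2 h] at h1
  exact h1.symm

/-- scaling of the bound -/
lemma scl {a : ℝ} (ha : 0 < a) {l : ℝ} (t : ℝ≥0∞) {q : ℝ} (hq : 0 < q) :
    (t / ENNReal.ofReal (a * l) ^ 2) ^ q =
      ENNReal.ofReal (a ^ (-(2 * q))) * (t / ENNReal.ofReal l ^ 2) ^ q := by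
  rw [ENNReal.ofReal_mul ha.le, mul_pow, div_eq_mul_inv, ENNReal.mul_inv (by
      left
      simp [ha]) (by left; simp), mul_left_comm, ENNReal.mul_rpow_of_nonneg _ _ hq.le,
    ← div_eq_mul_inv t]
  congr 1
  rw [← ENNReal.rpow_natCast, ENNReal.ofReal_rpow_of_pos ha, ← ENNReal.ofReal_inv_of_pos
    (by positivity), ENNReal.ofReal_rpow_of_pos (by positivity), Real.rpow_neg ha.le,
    Real.inv_rpow (by positivity), ← Real.rpow_mul ha.le]
  norm_num

lemma hlf (t x : ℝ≥0∞) {q : ℝ} (hq : 0 < q) :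
    (t / 2 / x) ^ q = ENNReal.ofReal (2 ^ (-q)) * (t / x) ^ q := by
  rw [div_eq_mul_inv t 2, mul_comm t, mul_div_assoc, ENNReal.mul_rpow_of_nonneg _ _ hq.le]
  congr 1
  rw [Real.rpow_neg (by norm_num), ENNReal.inv_rpow, ENNReal.ofReal_inv_of_pos (by positivity),
    ← ENNReal.ofReal_rpow_of_pos (by norm_num), ENNReal.ofReal_ofNat]

/-- the numerical constants -/
lemma consts {q : ℝ} (hq : 1 < q) : ∃ e C : ℝ, 0 < e ∧ e < 1 ∧ 0 < C ∧
    C * 2 ^ (-q) + (e ^ (-(2 * q)) + C * 2 ^ (-q) * (1 - e) ^ (-(2 * q))) ≤ C := by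
  have h1 : Tendsto (fun e : ℝ => (2 : ℝ) ^ (-q) * (1 + (1 - e) ^ (-(2 * q)))) (𝓝 0)
      (𝓝 ((2 : ℝ) ^ (-q) * (1 + (1 - 0) ^ (-(2 * q))))) := by
    refine Tendsto.const_mul _ (Tendsto.const_add _ ?_)
    refine Tendsto.rpow_const ?_ (by left; norm_num)
    exact tendsto_const_nhds.sub tendsto_id
  have h2 : (2 : ℝ) ^ (-q) * (1 + (1 - 0) ^ (-(2 * q))) < 1 := by
    rw [sub_zero, Real.one_rpow]
    calc (2 : ℝ) ^ (-q) * (1 + 1) = 2 ^ (-q) * 2 ^ (1 : ℝ) := by norm_num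
      _ = 2 ^ (-q + 1) := by rw [← Real.rpow_add (by norm_num)]
      _ < 1 := Real.rpow_lt_one_of_one_lt_of_neg (by norm_num) (by linarith)
  have h3 := h1.eventually_lt_const h2
  have h4 : ∀ᶠ e : ℝ in 𝓝[>] 0, (2 : ℝ) ^ (-q) * (1 + (1 - e) ^ (-(2 * q))) < 1 :=
    h3.filter_mono nhdsWithin_le_nhds
  have h5 : ∀ᶠ e : ℝ in 𝓝[>] 0, e ∈ Ioo (0 : ℝ) 1 := Ioo_mem_nhdsGT (by norm_num)
  obtain ⟨e, he, he'⟩ := (h4.and h5).exists
  have he0 : 0 < e := he'.1
  set κ : ℝ := (2 : ℝ) ^ (-q) * (1 + (1 - e) ^ (-(2 * q))) with hκ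
  refine ⟨e, e ^ (-(2 * q)) / (1 - κ), he0, he'.2, div_pos (by positivity) (by linarith), ?_⟩
  have h6 : (e ^ (-(2 * q)) / (1 - κ)) * (1 - κ) = e ^ (-(2 * q)) :=
    div_mul_cancel₀ _ (by linarith)
  have h7 : (e ^ (-(2 * q)) / (1 - κ)) * κ = e ^ (-(2 * q)) / (1 - κ) * 2 ^ (-q) +
      e ^ (-(2 * q)) / (1 - κ) * 2 ^ (-q) * (1 - e) ^ (-(2 * q)) := by
    rw [hκ]; ring
  linarith

/-- **the chaining**: finitely many sets -/
lemma chain {ι : Type*} [LinearOrder ι] {ν : Measure (ℝ × En n)} {K : ℝ≥0∞} {q : ℝ} (hq : 1 < q)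
    (hG : MemLp G 2)
    (hwk : ∀ D : Set (En n), MeasurableSet D → volume D < ⊤ → ∀ l : ℝ, 0 < l →
      ν {z | l < ‖W c G D z‖} ≤ K * (mass G D / ENNReal.ofReal l ^ 2) ^ q)
    {e C : ℝ} (he : 0 < e) (he1 : e < 1) (hC : 0 < C)
    (heC : C * 2 ^ (-q) + (e ^ (-(2 * q)) + C * 2 ^ (-q) * (1 - e) ^ (-(2 * q))) ≤ C)
    (N : ℕ) : ∀ (F : Finset ι), F.card = N → ∀ (D : ι → Set (En n)), (∀ i ∈ F, MeasurableSet (D i)) →
      (∀ i ∈ F, volume (D i) < ⊤) → (∀ i ∈ F, ∀ j ∈ F, i ≤ j → D i ⊆ D j) → ∀ t : ℝ≥0∞,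
      (∀ i ∈ F, mass G (D i) ≤ t) → ∀ l : ℝ, 0 < l →
      ν {z | ∃ i ∈ F, l < ‖W c G (D i) z‖} ≤
        ENNReal.ofReal C * (K * (t / ENNReal.ofReal l ^ 2) ^ q) := by
  have hq0 : 0 < q := by linarith
  induction N using Nat.strong_induction_on with
  | _ N ih =>
  intro F hF D hDm hDv hDD t ht l hl
  rcases F.eq_empty_or_nonempty with h0 | hne
  · subst h0
    simp
  set m := F.max' hne with hm
  have hmF : m ∈ F := F.max'_mem hne
  set t' := mass G (D m) with ht'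
  have htt : t' ≤ t := ht m hmF
  refine le_trans ?_ (mul_le_mul' le_rfl (mul_le_mul' le_rfl (ENNReal.rpow_le_rpow
    (ENNReal.div_le_div_right htt _) hq0.le)))
  have hle : ∀ i ∈ F, mass G (D i) ≤ t' := fun i hi => mass_mono (hDD i hi m hmF (F.le_max' i hi))
  have htop : t' ≠ ⊤ := (mass_lt hG _).ne
  rcases eq_or_ne t' 0 with h0 | h0
  · have h1 : ν {z | ∃ i ∈ F, l < ‖W c G (D i) z‖} = 0 := by
      have e1 : {z : ℝ × En n | ∃ i ∈ F, l < ‖W c G (D i) z‖} =
          ⋃ i ∈ (F : Set ι), {z | l < ‖W c G (D i) z‖} := by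
        ext z
        simp
      rw [e1, measure_biUnion_null_iff F.countable_toSet]
      intro i hi
      have h2 := hwk (D i) (hDm i hi) (hDv i hi) l hl
      have h3 : mass G (D i) = 0 := le_antisymm ((hle i hi).trans h0.le) bot_le
      rw [h3, ENNReal.zero_div, ENNReal.zero_rpow_of_pos hq0, mul_zero] at h2
      exact le_antisymm h2 bot_le
    rw [h1]
    exact bot_le
  have hhalf : t' / 2 < t' := ENNReal.half_lt_self h0 htop
  set F' := F.filter (fun i => t' / 2 < mass G (D i)) with hF'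
  have hne' : F'.Nonempty := ⟨m, Finset.mem_filter.2 ⟨hmF, hhalf⟩⟩
  set k := F'.min' hne' with hk
  have hkF' : k ∈ F' := F'.min'_mem hne'
  have hkF : k ∈ F := (Finset.mem_filter.1 hkF').1
  have hkm : t' / 2 < mass G (D k) := (Finset.mem_filter.1 hkF').2
  set F1 := F.filter (fun i => i < k) with hF1
  set F2 := F.filter (fun i => k < i) with hF2
  have c1 : F1.card < N := by
    rw [← hF]
    refine Finset.card_lt_card ⟨Finset.filter_subset _ _, fun h => ?_⟩
    exact lt_irrefl _ (Finset.mem_filter.1 (h hkF)).2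
  have c2 : F2.card < N := by
    rw [← hF]
    refine Finset.card_lt_card ⟨Finset.filter_subset _ _, fun h => ?_⟩
    exact lt_irrefl _ (Finset.mem_filter.1 (h hkF)).2
  have m1 : ∀ i ∈ F1, mass G (D i) ≤ t' / 2 := by
    intro i hi
    obtain ⟨hiF, hik⟩ := Finset.mem_filter.1 hi
    by_contra hcon
    push Not at hcon
    have := F'.min'_le i (Finset.mem_filter.2 ⟨hiF, hcon⟩)
    exact absurd hik (not_lt.2 this)
  have m2 : ∀ i ∈ F2, mass G (D i \ D k) ≤ t' / 2 := by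
    intro i hi
    obtain ⟨hiF, hik⟩ := Finset.mem_filter.1 hi
    have h1 := mass_diff (G := G) (hDm k hkF) (hDD k hkF i hiF hik.le)
    by_contra hcon
    push Not at hcon
    have h2 : t' / 2 + t' / 2 < mass G (D k) + mass G (D i \ D k) := ENNReal.add_lt_add hkm hcon
    rw [ENNReal.add_halves, h1] at h2
    exact absurd (hle i hiF) (not_le.2 h2)
  have i1 := ih _ c1 F1 rfl D (fun i hi => hDm i (Finset.mem_filter.1 hi).1)
    (fun i hi => hDv i (Finset.mem_filter.1 hi).1)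
    (fun i hi j hj => hDD i (Finset.mem_filter.1 hi).1 j (Finset.mem_filter.1 hj).1) (t' / 2) m1 l hl
  have i2 := ih _ c2 F2 rfl (fun i => D i \ D k)
    (fun i hi => (hDm i (Finset.mem_filter.1 hi).1).diff (hDm k hkF))
    (fun i hi => (measure_mono sdiff_subset).trans_lt (hDv i (Finset.mem_filter.1 hi).1))
    (fun i hi j hj hij => sdiff_subset_sdiff_left
      (hDD i (Finset.mem_filter.1 hi).1 j (Finset.mem_filter.1 hj).1 hij)) (t' / 2) m2
    ((1 - e) * l) (mul_pos (by linarith) hl)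
  have i3 := hwk (D k) (hDm k hkF) (hDv k hkF) (e * l) (mul_pos he hl)
  have hsub : {z : ℝ × En n | ∃ i ∈ F, l < ‖W c G (D i) z‖} ⊆
      {z | ∃ i ∈ F1, l < ‖W c G (D i) z‖} ∪ ({z | e * l < ‖W c G (D k) z‖} ∪
        {z | ∃ i ∈ F2, (1 - e) * l < ‖W c G (D i \ D k) z‖}) := by
    rintro z ⟨i, hiF, hi⟩
    rcases lt_trichotomy i k with h | h | h
    · left
      exact ⟨i, Finset.mem_filter.2 ⟨hiF, h⟩, hi⟩
    · right; left
      rw [h] at hi
      exact lt_trans (by nlinarith) hi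
    · right
      by_cases h1 : e * l < ‖W c G (D k) z‖
      · left; exact h1
      · right
        refine ⟨i, Finset.mem_filter.2 ⟨hiF, h⟩, ?_⟩
        push Not at h1
        have h2 := W_diff (c := c) hG (hDm k hkF) (hDm i hiF) (hDv i hiF) (hDD k hkF i hiF h.le) z
        rw [h2] at hi
        have h3 := norm_add_le (W c G (D k) z) (W c G (D i \ D k) z)
        nlinarith
  refine ((measure_mono hsub).trans (measure_union_le _ _)).trans ((add_le_add le_rfl
    (measure_union_le _ _)).trans ?_)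
  set Y := (t' / ENNReal.ofReal l ^ 2) ^ q with hY
  rw [hlf t' _ hq0] at i1
  rw [scl (by linarith : 0 < 1 - e) _ hq0, hlf t' _ hq0] at i2
  have i4 : K * (mass G (D k) / ENNReal.ofReal (e * l) ^ 2) ^ q ≤
      K * (ENNReal.ofReal (e ^ (-(2 * q))) * Y) := by
    rw [scl he _ hq0]
    exact mul_le_mul' le_rfl (mul_le_mul' le_rfl (ENNReal.rpow_le_rpow
      (ENNReal.div_le_div_right (hle k hkF) _) hq0.le))
  refine (add_le_add i1 (add_le_add (i3.trans i4) i2)).trans ?_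
  have e1 : ENNReal.ofReal C * (K * (ENNReal.ofReal (2 ^ (-q)) * Y)) +
      (K * (ENNReal.ofReal (e ^ (-(2 * q))) * Y) +
      ENNReal.ofReal C * (K * (ENNReal.ofReal ((1 - e) ^ (-(2 * q))) *
        (ENNReal.ofReal (2 ^ (-q)) * Y)))) =
      ENNReal.ofReal (C * 2 ^ (-q) + (e ^ (-(2 * q)) + C * 2 ^ (-q) * (1 - e) ^ (-(2 * q)))) *
        (K * Y) := by
    have p1 : 0 < 1 - e := by linarith
    rw [ENNReal.ofReal_add (by positivity) (by positivity), ENNReal.ofReal_add (by positivity)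
      (by positivity), ENNReal.ofReal_mul (by positivity), ENNReal.ofReal_mul (by positivity),
      ENNReal.ofReal_mul (by positivity)]
    ring
  rw [e1]
  exact mul_le_mul' (ENNReal.ofReal_le_ofReal heC) le_rfl

/-- **the maximal inequality** for a nested family -/
lemma maxi {ι : Type*} [LinearOrder ι] {ν : Measure (ℝ × En n)} {K : ℝ≥0∞} {q : ℝ} (hq : 1 < q)
    (hG : MemLp G 2)
    (hwk : ∀ D : Set (En n), MeasurableSet D → volume D < ⊤ → ∀ l : ℝ, 0 < l →
      ν {z | l < ‖W c G D z‖} ≤ K * (mass G D / ENNReal.ofReal l ^ 2) ^ q)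
    {e C : ℝ} (he : 0 < e) (he1 : e < 1) (hC : 0 < C)
    (heC : C * 2 ^ (-q) + (e ^ (-(2 * q)) + C * 2 ^ (-q) * (1 - e) ^ (-(2 * q))) ≤ C)
    {D : ι → Set (En n)} (hDm : ∀ i, MeasurableSet (D i)) (hDv : ∀ i, volume (D i) < ⊤)
    (hDD : Monotone D) {t : ℝ≥0∞} (ht : ∀ i, mass G (D i) ≤ t) {l : ℝ} (hl : 0 < l) :
    ν {z | ∃ i, l < ‖W c G (D i) z‖} ≤
        ENNReal.ofReal C * (K * (t / ENNReal.ofReal l ^ 2) ^ q) := by
  classical
  have hopen : ∀ i, IsOpen {z : ℝ × En n | l < ‖W c G (D i) z‖} := fun i =>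
    isOpen_lt continuous_const (W_cont hG (hDm i) (hDv i)).norm
  obtain ⟨T, hT, hTU⟩ := TopologicalSpace.isOpen_iUnion_countable _ hopen
  have e1 : {z : ℝ × En n | ∃ i, l < ‖W c G (D i) z‖} =
      ⋃ i, {z : ℝ × En n | l < ‖W c G (D i) z‖} := by
    ext z
    simp
  rw [e1, ← hTU]
  rcases T.eq_empty_or_nonempty with h0 | hne
  · rw [h0]; simp
  obtain ⟨f, hf⟩ := hT.exists_eq_range hne
  rw [hf, biUnion_range, measure_iUnion_eq_iSup_accumulate]
  refine iSup_le fun N => ?_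
  have h1 := chain (c := c) hq hG hwk he he1 hC heC _ ((Finset.range (N + 1)).image f) rfl D
    (fun i _ => hDm i) (fun i _ => hDv i) (fun i _ j _ hij => hDD hij) t (fun i _ => ht i) l hl
  refine le_trans (measure_mono ?_) h1
  intro z hz
  rw [mem_accumulate] at hz
  obtain ⟨y, hy, hz⟩ := hz
  exact ⟨f y, Finset.mem_image_of_mem f (Finset.mem_range.2 (by omega)), hz⟩

/-- the maximal set is open -/
lemma maxi_open {ι : Type*} (hG : MemLp G 2) {D : ι → Set (En n)} (hDm : ∀ i, MeasurableSet (D i))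
    (hDv : ∀ i, volume (D i) < ⊤) (l : ℝ) : IsOpen {z : ℝ × En n | ∃ i, l < ‖W c G (D i) z‖} := by
  have e1 : {z : ℝ × En n | ∃ i, l < ‖W c G (D i) z‖} =
      ⋃ i, {z : ℝ × En n | l < ‖W c G (D i) z‖} := by
    ext z
    simp
  rw [e1]
  exact isOpen_iUnion fun i => isOpen_lt continuous_const (W_cont hG (hDm i) (hDv i)).norm

end

end Pool.Agent.W2helper73.SC
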