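import Mathlib

/-! Dyadic intervals: contents of open sets and measures. -/

set_option autoImplicit false

open MeasureTheory Real Set Filter Topology
open scoped ENNReal

namespace Pool.Agent.W2helper73.SC

/-- the index of the dyadic interval of generation `g` of the point -/
noncomputable def ix (g : ℕ) (x : ℝ) : ℤ := ⌊x * 2 ^ g⌋

/-- the dyadic intervals -/
def Id (g : ℕ) (k : ℤ) : Set ℝ := {x | ix g x = k}

/-- the weights -/
noncomputable def wt (b : ℝ) (g : ℕ) : ℝ≥0∞ := ENNReal.ofReal ((2 : ℝ) ^ (-(b * g)))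

lemma ix_succ (g : ℕ) (x : ℝ) : ix g x = ix (g + 1) x / 2 := by
  have h1 := Int.floor_le (x * 2 ^ (g + 1))
  have h2 := Int.lt_floor_add_one (x * 2 ^ (g + 1))
  unfold ix
  set j := ⌊x * 2 ^ (g + 1)⌋ with hj
  have h3 : 2 * (j / 2) ≤ j := by omega
  have h4 : j ≤ 2 * (j / 2) + 1 := by omega
  have h3' : (2 : ℝ) * ((j / 2 : ℤ) : ℝ) ≤ j := by exact_mod_cast h3
  have h4' : (j : ℝ) ≤ 2 * ((j / 2 : ℤ) : ℝ) + 1 := by exact_mod_cast h4
  rw [Int.floor_eq_iff]
  rw [pow_succ] at h1 h2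
  constructor <;> nlinarith

lemma ix_nest {g g' : ℕ} (h : g ≤ g') {x y : ℝ} (hxy : ix g' x = ix g' y) : ix g x = ix g y := by
  induction g', h using Nat.le_induction with
  | base => exact hxy
  | succ m _ ih => exact ih (by rw [ix_succ, hxy, ← ix_succ])

lemma Id_eq (g : ℕ) (k : ℤ) : Id g k = Ico ((k : ℝ) / 2 ^ g) (((k : ℝ) + 1) / 2 ^ g) := by
  ext x
  have h2 : (0 : ℝ) < 2 ^ g := by positivity
  change ix g x = k ↔ _
  rw [ix, Int.floor_eq_iff, mem_Ico, div_le_iff₀ h2, lt_div_iff₀ h2]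

lemma Id_meas (g : ℕ) (k : ℤ) : MeasurableSet (Id g k) := by
  rw [Id_eq]; exact measurableSet_Ico

lemma Id_vol (g : ℕ) (k : ℤ) : volume (Id g k) = ENNReal.ofReal ((2 : ℝ) ^ (-(g : ℝ))) := by
  rw [Id_eq, Real.volume_Ico]
  congr 1
  rw [Real.rpow_neg (by norm_num), Real.rpow_natCast]
  field_simp
  ring

lemma Id_diam (g : ℕ) (k : ℤ) : Metric.ediam (Id g k) ≤ ENNReal.ofReal ((2 : ℝ) ^ (-(g : ℝ))) := by
  rw [Id_eq, Real.ediam_Ico]
  refine ENNReal.ofReal_le_ofReal (le_of_eq ?_)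
  rw [Real.rpow_neg (by norm_num), Real.rpow_natCast]
  field_simp
  ring

lemma wt_ne_top (b : ℝ) (g : ℕ) : wt b g ≠ ⊤ := ENNReal.ofReal_ne_top

lemma wt_le_one {b : ℝ} (hb : 0 < b) (g : ℕ) : wt b g ≤ 1 := by
  rw [wt, ← ENNReal.ofReal_one]
  refine ENNReal.ofReal_le_ofReal (Real.rpow_le_one_of_one_le_of_nonpos (by norm_num) ?_)
  have : 0 ≤ b * g := by positivity
  linarith

lemma Id_child (g : ℕ) (k : ℤ) : Id g k = Id (g + 1) (2 * k) ∪ Id (g + 1) (2 * k + 1) := by
  ext x
  change ix g x = k ↔ ix (g + 1) x = 2 * k ∨ ix (g + 1) x = 2 * k + 1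
  rw [ix_succ]
  omega

open Classical in
/-- the content of the part of `A` in a dyadic interval, with `d` generations -/
noncomputable def cc (b : ℝ) (A : Set ℝ) : ℕ → ℕ → ℤ → ℝ≥0∞
  | 0, g, k => if Id g k ⊆ A then wt b g else 0
  | d + 1, g, k => if Id g k ⊆ A then wt b g else
      min (wt b g) (cc b A d (g + 1) (2 * k) + cc b A d (g + 1) (2 * k + 1))

variable {b : ℝ} {A : Set ℝ}

lemma cc_le (d g : ℕ) (k : ℤ) : cc b A d g k ≤ wt b g := by
  cases d with
  | zero =>
    rw [cc]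
    split_ifs
    · exact le_rfl
    · exact bot_le
  | succ d =>
    rw [cc]
    split_ifs
    · exact le_rfl
    · exact min_le_left _ _

lemma cc_mono_succ (d : ℕ) : ∀ (g : ℕ) (k : ℤ), cc b A d g k ≤ cc b A (d + 1) g k := by
  induction d with
  | zero =>
    intro g k
    rw [cc, cc]
    split_ifs
    · exact le_rfl
    · exact bot_le
  | succ d ih =>
    intro g k
    rw [cc, cc]
    split_ifs
    · exact le_rfl
    · exact min_le_min le_rfl (add_le_add (ih _ _) (ih _ _))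

lemma cc_mono (g : ℕ) (k : ℤ) : Monotone (fun d => cc b A d g k) :=
  monotone_nat_of_le_succ fun d => cc_mono_succ d g k

/-- the content -/
noncomputable def cI (b : ℝ) (A : Set ℝ) (g : ℕ) (k : ℤ) : ℝ≥0∞ := ⨆ d, cc b A d g k

lemma cI_le (g : ℕ) (k : ℤ) : cI b A g k ≤ wt b g := iSup_le fun d => cc_le d g k

lemma cI_full {g : ℕ} {k : ℤ} (h : Id g k ⊆ A) : cI b A g k = wt b g := by
  refine le_antisymm (cI_le g k) (le_iSup_of_le 0 ?_)
  rw [cc, if_pos h]

lemma cI_split {g : ℕ} {k : ℤ} (h : cI b A g k ≠ wt b g) :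
    cI b A (g + 1) (2 * k) + cI b A (g + 1) (2 * k + 1) ≤ cI b A g k := by
  have h0 : ¬ Id g k ⊆ A := fun hs => h (cI_full hs)
  have h1 : min (wt b g) (cI b A (g + 1) (2 * k) + cI b A (g + 1) (2 * k + 1)) ≤ cI b A g k := by
    have h2 := ENNReal.iSup_add_iSup_of_monotone (cc_mono (b := b) (A := A) (g + 1) (2 * k))
      (cc_mono (b := b) (A := A) (g + 1) (2 * k + 1))
    unfold cI
    rw [h2]
    change wt b g ⊓ _ ≤ _
    rw [inf_iSup_eq]
    refine iSup_le fun d => le_iSup_of_le (d + 1) ?_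
    rw [cc, if_neg h0]
  rcases min_le_iff.1 h1 with h2 | h2
  · exact absurd (le_antisymm (cI_le g k) h2) h
  · exact h2

open Classical in
/-- the maximal full intervals, with `n` generations -/
noncomputable def cov (b : ℝ) (A : Set ℝ) : ℕ → ℕ → ℤ → Finset (ℕ × ℤ)
  | 0, g, k => if cI b A g k = wt b g then {(g, k)} else ∅
  | n + 1, g, k => if cI b A g k = wt b g then {(g, k)} else
      cov b A n (g + 1) (2 * k) ∪ cov b A n (g + 1) (2 * k + 1)

lemma cov_sum (n : ℕ) : ∀ (g : ℕ) (k : ℤ), ∑ p ∈ cov b A n g k, wt b p.1 ≤ cI b A g k := by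
  induction n with
  | zero =>
    intro g k
    rw [cov]
    split_ifs with h
    · rw [Finset.sum_singleton, h]
    · simp
  | succ n ih =>
    intro g k
    rw [cov]
    split_ifs with h
    · rw [Finset.sum_singleton, h]
    · refine le_trans ?_ (cI_split h)
      refine le_trans ?_ (add_le_add (ih _ _) (ih _ _))
      rw [← Finset.sum_union_inter]
      exact le_self_add

lemma cov_mono_succ (n : ℕ) : ∀ (g : ℕ) (k : ℤ), cov b A n g k ⊆ cov b A (n + 1) g k := by
  induction n with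
  | zero =>
    intro g k
    rw [cov, cov]
    split_ifs with h
    · exact le_rfl
    · simp
  | succ n ih =>
    intro g k
    rw [cov, cov]
    split_ifs with h
    · exact le_rfl
    · exact Finset.union_subset_union (ih _ _) (ih _ _)

lemma cov_mono (g : ℕ) (k : ℤ) : Monotone (fun n => cov b A n g k) :=
  monotone_nat_of_le_succ fun n => cov_mono_succ n g k

lemma cov_mem (n : ℕ) : ∀ (g : ℕ) (k : ℤ) (x : ℝ), x ∈ Id g k →
    cI b A (g + n) (ix (g + n) x) = wt b (g + n) → ∃ p ∈ cov b A n g k, x ∈ Id p.1 p.2 := by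
  induction n with
  | zero =>
    intro g k x hx h
    have hk : ix g x = k := hx
    rw [add_zero, hk] at h
    refine ⟨(g, k), ?_, hx⟩
    rw [cov, if_pos h]
    simp
  | succ n ih =>
    intro g k x hx h
    rw [cov]
    split_ifs with h1
    · exact ⟨(g, k), by simp, hx⟩
    · rw [show g + (n + 1) = g + 1 + n by omega] at h
      rw [Id_child] at hx
      rcases hx with hx | hx
      · obtain ⟨p, hp, hp'⟩ := ih _ _ x hx h
        exact ⟨p, Finset.mem_union_left _ hp, hp'⟩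
      · obtain ⟨p, hp, hp'⟩ := ih _ _ x hx h
        exact ⟨p, Finset.mem_union_right _ hp, hp'⟩

/-- every point of an open set lies in a dyadic interval inside the set -/
lemma open_small (hA : IsOpen A) {x : ℝ} (hx : x ∈ A) : ∃ n, Id n (ix n x) ⊆ A := by
  obtain ⟨ε, hε, hball⟩ := Metric.isOpen_iff.1 hA x hx
  obtain ⟨n, hn⟩ := exists_pow_lt_of_lt_one hε (by norm_num : (1 / 2 : ℝ) < 1)
  refine ⟨n, fun y hy => hball ?_⟩
  have h2 : (0 : ℝ) < 2 ^ n := by positivity
  have h1 : |x * 2 ^ n - y * 2 ^ n| < 1 := by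
    have hy' : ix n y = ix n x := hy
    exact Int.abs_sub_lt_one_of_floor_eq_floor hy'.symm
  rw [← sub_mul, abs_mul, abs_of_pos h2, ← lt_div_iff₀ h2] at h1
  rw [Metric.mem_ball, Real.dist_eq, abs_sub_comm]
  refine h1.trans_le (le_trans (le_of_eq ?_) hn.le)
  rw [one_div_pow]

/-- **the cover** of the part of an open set in a dyadic interval -/
lemma cover (hA : IsOpen A) (k : ℤ) : ∃ F : Set (ℕ × ℤ), (A ∩ Id 0 k ⊆ ⋃ p ∈ F, Id p.1 p.2) ∧
    ∑' p : F, wt b p.1.1 ≤ cI b A 0 k := by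
  refine ⟨⋃ n, (cov b A n 0 k : Set (ℕ × ℤ)), ?_, ?_⟩
  · rintro x ⟨hxA, hxk⟩
    obtain ⟨n, hn⟩ := open_small hA hxA
    have h1 := cI_full (b := b) hn
    rw [← zero_add n] at h1
    obtain ⟨p, hp, hxp⟩ := cov_mem n 0 k x hxk (by simpa using h1)
    exact mem_biUnion (mem_iUnion.2 ⟨n, hp⟩) hxp
  · rw [ENNReal.tsum_eq_iSup_sum]
    refine iSup_le fun S => ?_
    have h1 : ∃ n, ∀ p ∈ S, (p : ℕ × ℤ) ∈ cov b A n 0 k := by
      induction S using Finset.induction_on with
      | empty => exact ⟨0, by simp⟩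
      | insert q S _ ih =>
        obtain ⟨n, hn⟩ := ih
        obtain ⟨m, hm⟩ := mem_iUnion.1 q.2
        refine ⟨max n m, fun p hp => ?_⟩
        rcases Finset.mem_insert.1 hp with rfl | hp
        · exact cov_mono 0 k (le_max_right n m) hm
        · exact cov_mono 0 k (le_max_left n m) (hn p hp)
    obtain ⟨n, hn⟩ := h1
    refine le_trans ?_ (cov_sum n 0 k)
    classical
    calc ∑ p ∈ S, wt b p.1.1 = ∑ p ∈ S.image Subtype.val, wt b p.1 := by
          rw [Finset.sum_image]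
          exact fun x _ y _ h => Subtype.ext h
      _ ≤ _ := by
          refine Finset.sum_le_sum_of_subset ?_
          intro p hp
          obtain ⟨q, hq, rfl⟩ := Finset.mem_image.1 hp
          exact hn q hq

/-- comparison of the weights -/
lemma wt_comp (hb1 : b ≤ 1) {g g' : ℕ} (h : g ≤ g') :
    wt b g * ENNReal.ofReal ((2 : ℝ) ^ (g : ℝ)) * ENNReal.ofReal ((2 : ℝ) ^ (-(g' : ℝ))) ≤
      wt b g' := by
  rw [wt, wt, ← ENNReal.ofReal_mul (by positivity), ← ENNReal.ofReal_mul (by positivity),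
    ← Real.rpow_add (by norm_num), ← Real.rpow_add (by norm_num)]
  refine ENNReal.ofReal_le_ofReal (Real.rpow_le_rpow_of_exponent_le (by norm_num) ?_)
  have h1 : (g : ℝ) ≤ g' := by exact_mod_cast h
  nlinarith

/-- **the measures** on the part of an open set in a dyadic interval -/
lemma meas (hb1 : b ≤ 1) (d : ℕ) : ∀ (g : ℕ) (k : ℤ), ∃ μ : Measure ℝ,
    μ univ = cc b A d g k ∧ μ (Id g k ∩ A)ᶜ = 0 ∧ ∀ g' k', g ≤ g' → μ (Id g' k') ≤ wt b g' := by
  have full : ∀ (g : ℕ) (k : ℤ), Id g k ⊆ A → ∃ μ : Measure ℝ,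
      μ univ = wt b g ∧ μ (Id g k ∩ A)ᶜ = 0 ∧ ∀ g' k', g ≤ g' → μ (Id g' k') ≤ wt b g' := by
    intro g k h
    have e1 : ENNReal.ofReal ((2 : ℝ) ^ (g : ℝ)) * ENNReal.ofReal ((2 : ℝ) ^ (-(g : ℝ))) = 1 := by
      rw [← ENNReal.ofReal_mul (by positivity), ← Real.rpow_add (by norm_num)]
      simp
    refine ⟨(wt b g * ENNReal.ofReal ((2 : ℝ) ^ (g : ℝ))) • volume.restrict (Id g k), ?_, ?_, ?_⟩
    · rw [Measure.smul_apply, Measure.restrict_apply_univ, Id_vol, smul_eq_mul, mul_assoc, e1,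
        mul_one]
    · rw [Measure.smul_apply, inter_eq_left.2 h, Measure.restrict_apply (Id_meas g k).compl]
      simp
    · intro g' k' hg
      rw [Measure.smul_apply, smul_eq_mul]
      refine le_trans (mul_le_mul' le_rfl (Measure.restrict_apply_le _ _)) ?_
      rw [Id_vol]
      exact wt_comp hb1 hg
  induction d with
  | zero =>
    intro g k
    rw [cc]
    split_ifs with h
    · exact full g k h
    · exact ⟨0, by simp, by simp, by simp⟩
  | succ d ih =>
    intro g k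
    rw [cc]
    split_ifs with h
    · exact full g k h
    obtain ⟨μ₁, a1, a2, a3⟩ := ih (g + 1) (2 * k)
    obtain ⟨μ₂, b1, b2, b3⟩ := ih (g + 1) (2 * k + 1)
    have hsum : (μ₁ + μ₂) univ = cc b A d (g + 1) (2 * k) + cc b A d (g + 1) (2 * k + 1) := by
      rw [Measure.add_apply, a1, b1]
    have hsupp : (μ₁ + μ₂) (Id g k ∩ A)ᶜ = 0 := by
      rw [Measure.add_apply]
      have h1 : μ₁ (Id g k ∩ A)ᶜ = 0 := by
        refine measure_mono_null (compl_subset_compl.2 ?_) a2
        exact inter_subset_inter_left _ (by rw [Id_child g k]; exact subset_union_left)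
      have h2 : μ₂ (Id g k ∩ A)ᶜ = 0 := by
        refine measure_mono_null (compl_subset_compl.2 ?_) b2
        exact inter_subset_inter_left _ (by rw [Id_child g k]; exact subset_union_right)
      rw [h1, h2, add_zero]
    have hsmall : ∀ g' k', g + 1 ≤ g' → (μ₁ + μ₂) (Id g' k') ≤ wt b g' := by
      intro g' k' hg
      rw [Measure.add_apply]
      by_cases hne : ∃ x, x ∈ Id g' k' ∧ x ∈ Id (g + 1) (2 * k)
      · obtain ⟨x, hx, hx'⟩ := hne
        have h2 : μ₂ (Id g' k') = 0 := by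
          refine measure_mono_null ?_ b2
          rintro y hy ⟨hy', -⟩
          have e1 : ix g' y = ix g' x := by
            have u1 : ix g' y = k' := hy
            have u2 : ix g' x = k' := hx
            rw [u1, u2]
          have e2 := ix_nest hg e1
          have u1 : ix (g + 1) y = 2 * k + 1 := hy'
          have u2 : ix (g + 1) x = 2 * k := hx'
          omega
        rw [h2, add_zero]
        exact a3 g' k' hg
      · have h1 : μ₁ (Id g' k') = 0 := by
          refine measure_mono_null ?_ a2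
          rintro y hy ⟨hy', -⟩
          exact hne ⟨y, hy, hy'⟩
        rw [h1, zero_add]
        exact b3 g' k' hg
    set S := cc b A d (g + 1) (2 * k) + cc b A d (g + 1) (2 * k + 1) with hS
    rcases le_total S (wt b g) with h1 | h1
    · refine ⟨μ₁ + μ₂, ?_, hsupp, ?_⟩
      · rw [hsum, min_eq_right h1]
      · intro g' k' hg
        rcases hg.eq_or_lt with rfl | hg
        · exact (measure_mono (subset_univ _)).trans (hsum.le.trans h1)
        · exact hsmall g' k' hg
    · have hS0 : S ≠ 0 := by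
        refine (lt_of_lt_of_le ?_ h1).ne'
        rw [wt]
        exact ENNReal.ofReal_pos.2 (by positivity)
      have hSt : S ≠ ⊤ := by
        rw [hS]
        exact ENNReal.add_ne_top.2 ⟨((cc_le _ _ _).trans_lt (wt_ne_top b _).lt_top).ne,
          ((cc_le _ _ _).trans_lt (wt_ne_top b _).lt_top).ne⟩
      have hr : wt b g / S ≤ 1 := ENNReal.div_le_of_le_mul (by rw [one_mul]; exact h1)
      refine ⟨(wt b g / S) • (μ₁ + μ₂), ?_, ?_, ?_⟩
      · rw [Measure.smul_apply, hsum, smul_eq_mul, ENNReal.div_mul_cancel hS0 hSt, min_eq_left h1]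
      · rw [Measure.smul_apply, hsupp, smul_zero]
      · intro g' k' hg
        rcases hg.eq_or_lt with rfl | hg
        · refine (measure_mono (subset_univ _)).trans (le_of_eq ?_)
          rw [Measure.smul_apply, hsum, smul_eq_mul, ENNReal.div_mul_cancel hS0 hSt]
        · rw [Measure.smul_apply, smul_eq_mul]
          calc wt b g / S * (μ₁ + μ₂) (Id g' k') ≤ 1 * wt b g' := mul_le_mul' hr (hsmall g' k' hg)
            _ = wt b g' := one_mul _

/-- the bound of the potential -/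
noncomputable def Mb (a b : ℝ) : ℝ≥0∞ :=
  1 + ∑' g : ℕ, ENNReal.ofReal ((2 : ℝ) ^ (((g : ℝ) + 1) * a)) * (3 * wt b g)

lemma Mb_lt {a : ℝ} (hab : a < b) : Mb a b < ⊤ := by
  have h1 : ∀ g : ℕ, ENNReal.ofReal ((2 : ℝ) ^ (((g : ℝ) + 1) * a)) * (3 * wt b g) =
      ENNReal.ofReal (3 * 2 ^ a) * ENNReal.ofReal ((2 : ℝ) ^ (a - b)) ^ g := by
    intro g
    rw [wt, ← ENNReal.ofReal_pow (by positivity), ← ENNReal.ofReal_mul (by positivity),
      show (3 : ℝ≥0∞) = ENNReal.ofReal 3 by norm_num, ← ENNReal.ofReal_mul (by norm_num),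
      ← ENNReal.ofReal_mul (by positivity)]
    congr 1
    rw [← Real.rpow_natCast, ← Real.rpow_mul (by norm_num), mul_left_comm, ← Real.rpow_add
      (by norm_num), mul_assoc, ← Real.rpow_add (by norm_num)]
    congr 2
    ring
  unfold Mb
  simp_rw [h1]
  rw [ENNReal.tsum_mul_left, ENNReal.tsum_geometric]
  refine ENNReal.add_lt_top.2 ⟨ENNReal.one_lt_top, ENNReal.mul_lt_top ENNReal.ofReal_lt_top ?_⟩
  rw [ENNReal.inv_lt_top, tsub_pos_iff_lt, ENNReal.ofReal_lt_one]
  exact Real.rpow_lt_one_of_one_lt_of_neg (by norm_num) (by linarith)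

/-- **the potential** of a measure with small dyadic intervals -/
lemma energy {a : ℝ} (ha : 0 < a) {μ : Measure ℝ} (hμ1 : μ univ ≤ 1)
    (hμ : ∀ g k, μ (Id g k) ≤ wt b g) (s : ℝ) :
    ∫⁻ s', ENNReal.ofReal |s - s'| ^ (-a) ∂μ ≤ Mb a b := by
  have hball : ∀ g : ℕ, μ {s' | |s - s'| ≤ 2 ^ (-(g : ℝ))} ≤ 3 * wt b g := by
    intro g
    have hsub : {s' : ℝ | |s - s'| ≤ 2 ^ (-(g : ℝ))} ⊆
        Id g (ix g s - 1) ∪ (Id g (ix g s) ∪ Id g (ix g s + 1)) := by
      intro s' hs'
      have h2 : (0 : ℝ) < 2 ^ g := by positivity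
      have h1 : |s - s'| ≤ 2 ^ (-(g : ℝ)) := hs'
      rw [Real.rpow_neg (by norm_num), Real.rpow_natCast, ← one_div, le_div_iff₀ h2] at h1
      have h3 : |s * 2 ^ g - s' * 2 ^ g| ≤ 1 := by
        rw [← sub_mul, abs_mul, abs_of_pos h2]
        exact h1
      rw [abs_le] at h3
      have f1 := Int.floor_le (s * 2 ^ g)
      have f2 := Int.lt_floor_add_one (s * 2 ^ g)
      have f3 := Int.floor_le (s' * 2 ^ g)
      have f4 := Int.lt_floor_add_one (s' * 2 ^ g)
      have g1 : ⌊s' * 2 ^ g⌋ < ⌊s * 2 ^ g⌋ + 2 := by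
        have : (⌊s' * 2 ^ g⌋ : ℝ) < ⌊s * 2 ^ g⌋ + 2 := by linarith
        exact_mod_cast this
      have g2 : ⌊s * 2 ^ g⌋ < ⌊s' * 2 ^ g⌋ + 2 := by
        have : (⌊s * 2 ^ g⌋ : ℝ) < ⌊s' * 2 ^ g⌋ + 2 := by linarith
        exact_mod_cast this
      change ix g s' = ix g s - 1 ∨ ix g s' = ix g s ∨ ix g s' = ix g s + 1
      unfold ix
      omega
    refine (measure_mono hsub).trans ((measure_union_le _ _).trans ((add_le_add le_rfl
      (measure_union_le _ _)).trans ((add_le_add (hμ _ _) (add_le_add (hμ _ _) (hμ _ _))).trans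
        (le_of_eq ?_))))
    ring
  have hm : ∀ g : ℕ, MeasurableSet {s' : ℝ | |s - s'| ≤ 2 ^ (-(g : ℝ))} := fun g =>
    measurableSet_le (by fun_prop) measurable_const
  have hpt : ∀ s' : ℝ, ENNReal.ofReal |s - s'| ^ (-a) ≤ 1 + ∑' g : ℕ,
      ENNReal.ofReal ((2 : ℝ) ^ (((g : ℝ) + 1) * a)) *
        {s' : ℝ | |s - s'| ≤ 2 ^ (-(g : ℝ))}.indicator 1 s' := by
    intro s'
    rcases eq_or_ne s s' with h0 | h0
    · have e1 : ∑' g : ℕ, ENNReal.ofReal ((2 : ℝ) ^ (((g : ℝ) + 1) * a)) *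
          {s' : ℝ | |s - s'| ≤ 2 ^ (-(g : ℝ))}.indicator 1 s' = ⊤ := by
        have h1 : ∀ g : ℕ, 1 ≤ ENNReal.ofReal ((2 : ℝ) ^ (((g : ℝ) + 1) * a)) *
            {s' : ℝ | |s - s'| ≤ 2 ^ (-(g : ℝ))}.indicator 1 s' := by
          intro g
          rw [indicator_of_mem (by
            change |s - s'| ≤ _
            rw [h0, sub_self, abs_zero]; positivity), Pi.one_apply, mul_one,
            ENNReal.one_le_ofReal]
          exact Real.one_le_rpow (by norm_num) (by positivity)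
        refine top_unique (le_trans ?_ (ENNReal.tsum_le_tsum h1))
        rw [ENNReal.tsum_const_eq_top_of_ne_zero one_ne_zero]
      rw [e1, add_top]
      exact le_top
    have ht : 0 < |s - s'| := abs_pos.2 (sub_ne_zero.2 h0)
    rw [ENNReal.ofReal_rpow_of_pos ht]
    rcases le_or_gt 1 |s - s'| with h1 | h1
    · refine le_trans ?_ le_self_add
      rw [← ENNReal.ofReal_one]
      exact ENNReal.ofReal_le_ofReal (Real.rpow_le_one_of_one_le_of_nonpos h1 (by linarith))
    · obtain ⟨g, hg1, hg2⟩ := exists_nat_pow_near_of_lt_one ht h1.le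
        (by norm_num : (0 : ℝ) < 1 / 2) (by norm_num : (1 / 2 : ℝ) < 1)
      refine le_trans ?_ (le_trans (ENNReal.le_tsum g) le_add_self)
      have e2 : ((1 : ℝ) / 2) ^ g = 2 ^ (-(g : ℝ)) := by
        rw [Real.rpow_neg (by norm_num), Real.rpow_natCast, one_div, inv_pow]
      rw [indicator_of_mem (by change |s - s'| ≤ _; rw [← e2]; exact hg2), Pi.one_apply, mul_one]
      refine ENNReal.ofReal_le_ofReal ?_
      have e3 : ((1 : ℝ) / 2) ^ (g + 1) = 2 ^ (-((g : ℝ) + 1)) := by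
        rw [Real.rpow_neg (by norm_num), one_div, inv_pow, ← Nat.cast_succ, Real.rpow_natCast]
      have e4 : (2 : ℝ) ^ (((g : ℝ) + 1) * a) = (2 ^ (-((g : ℝ) + 1))) ^ (-a) := by
        rw [← Real.rpow_mul (by norm_num)]
        congr 1
        ring
      rw [e4, ← e3]
      exact Real.rpow_le_rpow_of_nonpos (by positivity) hg1.le (by linarith)
  refine (lintegral_mono hpt).trans ?_
  have hmi : ∀ g : ℕ, Measurable (fun s' : ℝ => ENNReal.ofReal ((2 : ℝ) ^ (((g : ℝ) + 1) * a)) *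
        {s' : ℝ | |s - s'| ≤ 2 ^ (-(g : ℝ))}.indicator (1 : ℝ → ℝ≥0∞) s') := fun g =>
    (measurable_one.indicator (hm g)).const_mul _
  rw [lintegral_add_left measurable_const, lintegral_const, one_mul,
    lintegral_tsum (fun g => (hmi g).aemeasurable)]
  unfold Mb
  refine add_le_add hμ1 (ENNReal.tsum_le_tsum fun g => ?_)
  rw [lintegral_const_mul _ (measurable_one.indicator (hm g)), lintegral_indicator_one (hm g)]
  exact mul_le_mul' le_rfl (hball g)

end Pool.Agent.W2helper73.SC
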