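import Mathlib
import Pool.Agent.W2helper73.SC.Ch
import Pool.Agent.W2helper73.SC.Dy
import Pool.Agent.R280.HC.C0
import Pool.Agent.R280.HC.C0H

/-! The exceptional set of times. -/

set_option autoImplicit false

open MeasureTheory Real Set Filter Topology
open scoped ENNReal RealInnerProductSpace

namespace Pool.Agent.W2helper73.SC

open Pool.Agent.Helper93.Sph (En ek ek_norm ek_cont gint piece_int)

section content

variable {b : ℝ} {A : Set ℝ}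

/-- the Hausdorff content is at most the dyadic content -/
lemma cont_le_cI (hb : 0 < b) (hA : IsOpen A) (k : ℤ) :
    Pool.Agent.R280.HC.cont b (A ∩ Id 0 k) ≤ cI b A 0 k := by
  classical
  obtain ⟨F, hF1, hF2⟩ := cover (b := b) hA k
  refine le_trans ?_ hF2
  obtain ⟨e⟩ : Nonempty (ℕ ≃ ℕ × ℤ) := ⟨(Denumerable.eqv (ℕ × ℤ)).symm⟩
  set V : ℕ → Set ℝ := fun j => if e j ∈ F then Id (e j).1 (e j).2 else ∅ with hV
  have h1 : A ∩ Id 0 k ⊆ ⋃ j, V j := by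
    intro x hx
    obtain ⟨p, hp, hxp⟩ := mem_iUnion₂.1 (hF1 hx)
    refine mem_iUnion.2 ⟨e.symm p, ?_⟩
    simp only [hV, Equiv.apply_symm_apply, if_pos hp]
    exact hxp
  refine (iInf₂_le V h1).trans ?_
  have h2 : ∀ j, Metric.ediam (V j) ^ b ≤ F.indicator (fun p : ℕ × ℤ => wt b p.1) (e j) := by
    intro j
    by_cases hj : e j ∈ F
    · rw [indicator_of_mem hj]
      simp only [hV, if_pos hj]
      refine (ENNReal.rpow_le_rpow (Id_diam _ _) hb.le).trans (le_of_eq ?_)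
      rw [wt, ENNReal.ofReal_rpow_of_pos (by positivity), ← Real.rpow_mul (by norm_num)]
      congr 2
      ring
    · rw [indicator_of_notMem hj]
      simp only [hV, if_neg hj, Metric.ediam_empty]
      rw [ENNReal.zero_rpow_of_pos hb]
  refine (ENNReal.tsum_le_tsum h2).trans (le_of_eq ?_)
  rw [e.tsum_eq (fun p => F.indicator (fun p : ℕ × ℤ => wt b p.1) p), tsum_subtype F
    (fun p : ℕ × ℤ => wt b p.1)]

/-- the dyadic content of an open set which carries no large measure of finite potential -/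
lemma cI_small {a : ℝ} (ha : 0 < a) (hb : 0 < b) (hb1 : b ≤ 1) {η : ℝ≥0∞}
    (h : ∀ μ : Measure ℝ, μ univ ≤ 1 → μ Aᶜ = 0 →
      (∀ s, ∫⁻ s', ENNReal.ofReal |s - s'| ^ (-a) ∂μ ≤ Mb a b) → μ univ ≤ η) (k : ℤ) :
    cI b A 0 k ≤ η := by
  refine iSup_le fun d => ?_
  obtain ⟨μ, h1, h2, h3⟩ := meas (b := b) (A := A) hb1 d 0 k
  have hle : μ univ ≤ 1 := by
    rw [h1]
    exact (cc_le d 0 k).trans (wt_le_one hb 0)
  rw [← h1]
  refine h μ hle (measure_mono_null (compl_subset_compl.2 inter_subset_right) h2) fun s => ?_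
  exact energy ha hle (fun g k' => h3 g k' (Nat.zero_le g)) s

/-- from contents to the dimension -/
lemma dim_le (hb : 0 < b) {E : Set ℝ} (h : ∀ η : ℝ≥0∞, 0 < η → Pool.Agent.R280.HC.cont b E ≤ η) :
    dimH E ≤ ENNReal.ofReal b := by
  by_contra hcon
  push Not at hcon
  have h1 := Pool.Agent.R280.HC.C0H.main ℝ b hb E hcon
  obtain ⟨η, h2, h3⟩ := exists_between h1
  exact absurd (h η h2) (not_le.2 h3)

end content

/-- the measure of the slices of an open set is lower semicontinuous -/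
lemma slice_open {n : ℕ} {O : Set (ℝ × En n)} (hO : IsOpen O) (κ : ℝ≥0∞) (ρ : ℝ) :
    IsOpen {s : ℝ | κ < volume ((Prod.mk s ⁻¹' O) ∩ Metric.ball 0 ρ)} := by
  rw [isOpen_iff_mem_nhds]
  intro s hs
  have h1 : IsOpen ((Prod.mk s ⁻¹' O) ∩ Metric.ball 0 ρ) :=
    (hO.preimage (by fun_prop)).inter Metric.isOpen_ball
  obtain ⟨K, hK1, hK2, hK3⟩ := h1.exists_lt_isCompact hs
  have h2 : ({s} : Set ℝ) ×ˢ K ⊆ O := by
    rintro ⟨s', x⟩ ⟨hs', hx⟩
    rw [mem_singleton_iff] at hs'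
    simp only at hs' hx
    subst hs'
    exact (hK1 hx).1
  obtain ⟨u, v, hu, hv, hsu, hKv, huv⟩ := generalized_tube_lemma isCompact_singleton hK2 hO h2
  refine mem_of_superset (hu.mem_nhds (hsu rfl)) fun s' hs' => ?_
  refine lt_of_lt_of_le hK3 (measure_mono fun x hx => ⟨?_, (hK1 hx).2⟩)
  exact huv ⟨hs', hKv hx⟩

section flow

variable {n : ℕ} {c : Fin n → ℝ} {G : En n → ℂ} {D : ℝ → Set (En n)}

lemma Dinf_meas (hDm : ∀ R, MeasurableSet (D R)) : MeasurableSet (⋃ j : ℕ, D j) :=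
  MeasurableSet.iUnion fun j => hDm j

lemma sub_Dinf (hDD : Monotone D) (R : ℝ) : D R ⊆ ⋃ j : ℕ, D j := by
  obtain ⟨j, hj⟩ := exists_nat_ge R
  exact (hDD hj).trans (subset_iUnion (fun j : ℕ => D j) j)

lemma t_tendsto (hG : MemLp G 2) (hDm : ∀ R, MeasurableSet (D R)) (hDD : Monotone D) :
    Tendsto (fun m : ℕ => mass G ((⋃ j : ℕ, D j) \ D m)) atTop (𝓝 0) := by
  have hm : ∀ m : ℕ, MeasurableSet ((⋃ j : ℕ, D j) \ D m) := fun m => (Dinf_meas hDm).diff (hDm m)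
  have e1 : ∀ m : ℕ, mass G ((⋃ j : ℕ, D j) \ D m) =
      (volume.withDensity fun ξ => ‖G ξ‖ₑ ^ 2) ((⋃ j : ℕ, D j) \ D m) := fun m => by
    rw [withDensity_apply _ (hm m), mass]
  simp_rw [e1]
  have h1 := tendsto_measure_iInter_atTop (μ := volume.withDensity fun ξ => ‖G ξ‖ₑ ^ 2)
    (s := fun m : ℕ => (⋃ j : ℕ, D j) \ D m) (fun m => (hm m).nullMeasurableSet)
    (fun a b hab => sdiff_subset_sdiff_right (hDD (by exact_mod_cast hab)))
    ⟨0, by rw [← e1 0]; exact (mass_lt hG _).ne⟩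
  have h2 : ⋂ m : ℕ, ((⋃ j : ℕ, D j) \ D m) = ∅ := by
    ext ξ
    simp only [mem_iInter, Set.mem_sdiff, mem_iUnion, mem_empty_iff_false, iff_false]
    intro h
    obtain ⟨j, hj⟩ := (h 0).1
    exact (h j).2 hj
  rwa [h2, measure_empty] at h1

/-- the set where the partial integrals with `R` beyond `m` move by more than `l` -/
def Os (c : Fin n → ℝ) (G : En n → ℂ) (D : ℝ → Set (En n)) (m : ℕ) (l : ℝ) : Set (ℝ × En n) :=
  {z | ∃ R : ℝ, l < ‖W c G (D R \ D m) z‖}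

lemma Os_open (hG : MemLp G 2) (hDm : ∀ R, MeasurableSet (D R)) (hDv : ∀ R, volume (D R) < ⊤)
    (m : ℕ) (l : ℝ) : IsOpen (Os c G D m l) :=
  maxi_open hG (fun R => (hDm R).diff (hDm m))
    (fun R => (measure_mono sdiff_subset).trans_lt (hDv R)) l

lemma Os_le {μ : Measure ℝ} [IsFiniteMeasure μ] (hn : 0 < n) (hc : ∀ j, c j ≠ 0) (hG : MemLp G 2)
    (hDm : ∀ R, MeasurableSet (D R)) (hDv : ∀ R, volume (D R) < ⊤) (hDD : Monotone D)
    {q : ℝ} (hq : 1 < q) {e C : ℝ} (he : 0 < e) (he1 : e < 1) (hC : 0 < C)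
    (heC : C * 2 ^ (-q) + (e ^ (-(2 * q)) + C * 2 ^ (-q) * (1 - e) ^ (-(2 * q))) ≤ C) {M : ℝ≥0∞}
    (hM : ∀ s, ∫⁻ s', ENNReal.ofReal |s - s'| ^ (-((n : ℝ) * (q - 1))) ∂μ ≤ M) (m : ℕ)
    {l : ℝ} (hl : 0 < l) :
    (μ.prod volume) (Os c G D m l) ≤ ENNReal.ofReal C * (Q0 c μ M q *
      (mass G ((⋃ j : ℕ, D j) \ D m) / ENNReal.ofReal l ^ 2) ^ q) :=
  maxi (D := fun R => D R \ D m) hq hG
    (fun _ hE hEv _ hl' => wk hn hc hG hE hEv hq hM hl') he he1 hC heC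
    (fun R => (hDm R).diff (hDm m)) (fun R => (measure_mono sdiff_subset).trans_lt (hDv R))
    (fun _ _ hR => sdiff_subset_sdiff_left (hDD hR))
    (fun R => mass_mono (sdiff_subset_sdiff_left (sub_Dinf hDD R))) hl

/-- the bad times -/
def Ut (c : Fin n → ℝ) (G : En n → ℂ) (D : ℝ → Set (En n)) (m : ℕ) (l ρ : ℝ) (κ : ℝ≥0∞) : Set ℝ :=
  {s | κ < volume ((Prod.mk s ⁻¹' Os c G D m l) ∩ Metric.ball 0 ρ)}

lemma Ut_small (hn : 0 < n) (hc : ∀ j, c j ≠ 0) (hG : MemLp G 2)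
    (hDm : ∀ R, MeasurableSet (D R)) (hDv : ∀ R, volume (D R) < ⊤) (hDD : Monotone D)
    {q : ℝ} (hq : 1 < q) {e C : ℝ} (he : 0 < e) (he1 : e < 1) (hC : 0 < C)
    (heC : C * 2 ^ (-q) + (e ^ (-(2 * q)) + C * 2 ^ (-q) * (1 - e) ^ (-(2 * q))) ≤ C) {M : ℝ≥0∞}
    (m : ℕ) {l : ℝ} (hl : 0 < l) (ρ : ℝ) {κ : ℝ≥0∞} (hκ : κ ≠ 0) (hκ' : κ ≠ ⊤)
    (μ : Measure ℝ) (hμ : μ univ ≤ 1) (hμU : μ (Ut c G D m l ρ κ)ᶜ = 0)
    (hM : ∀ s, ∫⁻ s', ENNReal.ofReal |s - s'| ^ (-((n : ℝ) * (q - 1))) ∂μ ≤ M) :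
    μ univ ≤ κ⁻¹ * (ENNReal.ofReal C * ((ENNReal.ofReal (kc c) ^ (q - 1) * M ^ (1 / 2 : ℝ)) *
      (mass G ((⋃ j : ℕ, D j) \ D m) / ENNReal.ofReal l ^ 2) ^ q)) := by
  have : IsFiniteMeasure μ := ⟨hμ.trans_lt ENNReal.one_lt_top⟩
  have h1 := Os_le hn hc hG hDm hDv hDD hq he he1 hC heC hM m hl
  have hOm : MeasurableSet (Os c G D m l) := (Os_open hG hDm hDv m l).measurableSet
  rw [Measure.prod_apply hOm] at h1
  have h2 : κ * μ univ ≤ ∫⁻ s, volume (Prod.mk s ⁻¹' Os c G D m l) ∂μ := by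
    have h3 : μ univ ≤ μ {s | κ ≤ volume (Prod.mk s ⁻¹' Os c G D m l)} := by
      have h4 : μ univ ≤ μ (Ut c G D m l ρ κ) + μ (Ut c G D m l ρ κ)ᶜ := by
        rw [← union_compl_self (Ut c G D m l ρ κ)]
        exact measure_union_le _ _
      rw [hμU, add_zero] at h4
      refine h4.trans (measure_mono fun s hs => ?_)
      have hs' : κ < volume ((Prod.mk s ⁻¹' Os c G D m l) ∩ Metric.ball 0 ρ) := hs
      exact hs'.le.trans (measure_mono inter_subset_left)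
    exact (mul_le_mul' le_rfl h3).trans (mul_meas_ge_le_lintegral
      (measurable_measure_prodMk_left hOm) κ)
  have h5 := h2.trans h1
  rw [← ENNReal.mul_le_mul_iff_right hκ hκ', ← mul_assoc κ, ENNReal.mul_inv_cancel hκ hκ', one_mul]
  refine h5.trans (mul_le_mul' le_rfl (mul_le_mul' ?_ le_rfl))
  rw [Q0]
  refine mul_le_mul' le_rfl (ENNReal.rpow_le_rpow ?_ (by norm_num))
  calc M * μ univ ≤ M * 1 := mul_le_mul' le_rfl hμ
    _ = M := mul_one _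

/-- the divergence set -/
lemma div_sub (hG : MemLp G 2) (hDm : ∀ R, MeasurableSet (D R)) (hDv : ∀ R, volume (D R) < ⊤)
    (hDD : Monotone D) (s : ℝ) (x : En n)
    (h : ∀ j : ℕ, ∃ m : ℕ, (s, x) ∉ Os c G D m (1 / ((j : ℝ) + 1))) :
    ∃ y, Tendsto (fun R => W c G (D R) (s, x)) atTop (𝓝 y) := by
  refine cauchySeq_tendsto_of_complete (Metric.cauchySeq_iff'.2 fun ε hε => ?_)
  obtain ⟨j, hj⟩ := exists_nat_one_div_lt hε
  obtain ⟨m, hm⟩ := h j
  refine ⟨m, fun R hR => ?_⟩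
  have h1 : ¬ ∃ R : ℝ, 1 / ((j : ℝ) + 1) < ‖W c G (D R \ D m) (s, x)‖ := hm
  push Not at h1
  rw [dist_eq_norm, W_diff hG (hDm m) (hDm R) (hDv R) (hDD hR) (s, x), add_sub_cancel_left]
  exact (h1 R).trans_lt hj

/-- the exceptional times -/
lemma dim_bad (hn : 0 < n) (hc : ∀ j, c j ≠ 0) (hG : MemLp G 2)
    (hDm : ∀ R, MeasurableSet (D R)) (hDv : ∀ R, volume (D R) < ⊤) (hDD : Monotone D) :
    dimH {s : ℝ | ¬ ∀ᵐ x : En n, ∃ y, Tendsto (fun R => W c G (D R) (s, x)) atTop (𝓝 y)} = 0 := by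
  set B : Set ℝ := {s : ℝ | ¬ ∀ᵐ x : En n, ∃ y, Tendsto (fun R => W c G (D R) (s, x)) atTop (𝓝 y)}
    with hB
  -- the covering
  have hcov : B ⊆ ⋃ (j : ℕ) (ρ : ℕ) (i : ℕ) (k : ℤ),
      (⋂ m : ℕ, Ut c G D m (1 / ((j : ℝ) + 1)) ρ ((i : ℝ≥0∞) + 1)⁻¹) ∩ Id 0 k := by
    intro s hs
    have hs' : ¬ ∀ᵐ x : En n, ∃ y, Tendsto (fun R => W c G (D R) (s, x)) atTop (𝓝 y) := hs
    rw [ae_iff] at hs'
    have h1 : {x : En n | ¬ ∃ y, Tendsto (fun R => W c G (D R) (s, x)) atTop (𝓝 y)} ⊆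
        ⋃ (j : ℕ) (ρ : ℕ), (⋂ m : ℕ, Prod.mk s ⁻¹' Os c G D m (1 / ((j : ℝ) + 1))) ∩
          Metric.ball 0 (ρ : ℝ) := by
      intro x hx
      have h2 : ¬ ∀ j : ℕ, ∃ m : ℕ, (s, x) ∉ Os c G D m (1 / ((j : ℝ) + 1)) := fun h =>
        hx (div_sub hG hDm hDv hDD s x h)
      push Not at h2
      obtain ⟨j, hj⟩ := h2
      obtain ⟨ρ, hρ⟩ := exists_nat_gt ‖x‖
      refine mem_iUnion₂.2 ⟨j, ρ, mem_iInter.2 fun m => hj m, ?_⟩
      rwa [mem_ball_zero_iff]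
    have h3 : ∃ j ρ : ℕ, volume ((⋂ m : ℕ, Prod.mk s ⁻¹' Os c G D m (1 / ((j : ℝ) + 1))) ∩
          Metric.ball 0 (ρ : ℝ)) ≠ 0 := by
      by_contra hcon
      push Not at hcon
      refine hs' (measure_mono_null h1 ?_)
      rw [measure_iUnion_null_iff]
      intro j
      rw [measure_iUnion_null_iff]
      exact fun ρ => hcon j ρ
    obtain ⟨j, ρ, h4⟩ := h3
    obtain ⟨i, hi⟩ := ENNReal.exists_inv_nat_lt h4
    refine mem_iUnion₂.2 ⟨j, ρ, mem_iUnion₂.2 ⟨i, ix 0 s, mem_iInter.2 fun m => ?_, rfl⟩⟩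
    change ((i : ℝ≥0∞) + 1)⁻¹ < _
    refine lt_of_le_of_lt ?_ (hi.trans_le (measure_mono ?_))
    · exact ENNReal.inv_le_inv.2 le_self_add
    · exact inter_subset_inter_left _ (iInter_subset _ m)
  -- the pieces
  have hpiece : ∀ b : ℝ, 0 < b → b ≤ 1 → ∀ (j ρ i : ℕ) (k : ℤ),
      dimH ((⋂ m : ℕ, Ut c G D m (1 / ((j : ℝ) + 1)) ρ ((i : ℝ≥0∞) + 1)⁻¹) ∩ Id 0 k) ≤
        ENNReal.ofReal b := by
    intro b hb hb1 j ρ i k
    refine dim_le hb fun η hη => ?_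
    have hn' : (0 : ℝ) < n := by exact_mod_cast hn
    set q : ℝ := 1 + b / (2 * n) with hq
    have hq1 : 1 < q := by
      have : 0 < b / (2 * n) := by positivity
      rw [hq]; linarith
    have ha : (n : ℝ) * (q - 1) = b / 2 := by
      rw [hq]; field_simp; ring
    obtain ⟨e, C, he, he1, hC, heC⟩ := consts hq1
    have hl : (0 : ℝ) < 1 / ((j : ℝ) + 1) := by positivity
    set l : ℝ := 1 / ((j : ℝ) + 1) with hldef
    set κ : ℝ≥0∞ := ((i : ℝ≥0∞) + 1)⁻¹ with hκdef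
    have hκ : κ ≠ 0 := by
      rw [hκdef, Ne, ENNReal.inv_eq_zero]
      exact ENNReal.add_ne_top.2 ⟨ENNReal.natCast_ne_top i, ENNReal.one_ne_top⟩
    have hκ' : κ ≠ ⊤ := by
      rw [hκdef, Ne, ENNReal.inv_eq_top]
      simp
    set bd : ℕ → ℝ≥0∞ := fun m => κ⁻¹ * (ENNReal.ofReal C * ((ENNReal.ofReal (kc c) ^ (q - 1) *
      (Mb (b / 2) b) ^ (1 / 2 : ℝ)) *
      (mass G ((⋃ j : ℕ, D j) \ D m) / ENNReal.ofReal l ^ 2) ^ q)) with hbd
    have hbd0 : Tendsto bd atTop (𝓝 0) := by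
      have hMb := Mb_lt (show b / 2 < b by linarith)
      have h1 := t_tendsto hG hDm hDD
      have h2 : Tendsto (fun m : ℕ => mass G ((⋃ j : ℕ, D j) \ D m) / ENNReal.ofReal l ^ 2) atTop
          (𝓝 0) := by
        have := ENNReal.Tendsto.div_const (b := ENNReal.ofReal l ^ 2) h1 (Or.inr (by
          have : ENNReal.ofReal l ≠ 0 := by
            rwa [Ne, ENNReal.ofReal_eq_zero, not_le]
          exact pow_ne_zero 2 this))
        rwa [ENNReal.zero_div] at this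
      have h3 := ((ENNReal.continuous_rpow_const (y := q)).tendsto 0).comp h2
      rw [ENNReal.zero_rpow_of_pos (by linarith)] at h3
      have hK : ENNReal.ofReal (kc c) ^ (q - 1) * (Mb (b / 2) b) ^ (1 / 2 : ℝ) ≠ ⊤ :=
        ENNReal.mul_ne_top (ENNReal.rpow_ne_top_of_nonneg (by linarith) ENNReal.ofReal_ne_top)
          (ENNReal.rpow_ne_top_of_nonneg (by norm_num) hMb.ne)
      have h4 := ENNReal.Tendsto.const_mul (a := ENNReal.ofReal (kc c) ^ (q - 1) *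
        (Mb (b / 2) b) ^ (1 / 2 : ℝ)) h3 (Or.inr hK)
      have h5 := ENNReal.Tendsto.const_mul (a := ENNReal.ofReal C) h4 (Or.inr ENNReal.ofReal_ne_top)
      have h6 := ENNReal.Tendsto.const_mul (a := κ⁻¹) h5 (Or.inr (ENNReal.inv_ne_top.2 hκ))
      simp only [mul_zero] at h6
      exact h6
    obtain ⟨m, hm⟩ := (hbd0.eventually_le_const hη).exists
    refine le_trans ?_ hm
    have h7 := (Pool.Agent.R280.HC.C0.main ℝ b hb).1
    have hUo : IsOpen (Ut c G D m l ρ κ) := slice_open (Os_open hG hDm hDv m l) κ ρ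
    refine (h7 _ _ (inter_subset_inter_left _ (iInter_subset _ m))).trans
      ((cont_le_cI hb hUo k).trans ?_)
    refine cI_small (a := b / 2) (by positivity) hb hb1 (fun μ h1 h2 h3 => ?_) k
    refine Ut_small hn hc hG hDm hDv hDD hq1 he he1 hC heC m hl ρ hκ hκ' μ h1 h2 ?_
    rw [ha]
    exact h3
  refine le_antisymm ?_ bot_le
  have hall : ∀ b : ℝ, 0 < b → b ≤ 1 → dimH B ≤ ENNReal.ofReal b := by
    intro b hb hb1
    refine (dimH_mono hcov).trans ?_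
    simp only [dimH_iUnion]
    refine iSup_le fun j => iSup_le fun ρ => iSup_le fun i => iSup_le fun k => ?_
    exact hpiece b hb hb1 j ρ i k
  have hlim : Tendsto (fun k : ℕ => ENNReal.ofReal (1 / ((k : ℝ) + 1))) atTop (𝓝 0) := by
    have := ENNReal.tendsto_ofReal (tendsto_one_div_add_atTop_nhds_zero_nat (𝕜 := ℝ))
    rwa [ENNReal.ofReal_zero] at this
  refine ge_of_tendsto hlim ?_
  · refine Eventually.of_forall fun k => hall _ (by positivity) ?_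
    rw [div_le_one (by positivity)]
    have : (0 : ℝ) ≤ k := Nat.cast_nonneg k
    linarith

end flow

end Pool.Agent.W2helper73.SC
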