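import Mathlib
import Pool.Agent.W2helper73.SC.Dm

/-! The limit in the mean, and the bound on sets of finite measure. -/

set_option autoImplicit false

open MeasureTheory Real Set Filter Topology
open scoped ENNReal RealInnerProductSpace

namespace Pool.Agent.W2helper73.SC

open Pool.Agent.Helper93.Sph (En Fi bessel ek ek_norm ek_cont gint piece_int)

section layer

variable {Z : Type*} [MeasurableSpace Z] {ν : Measure Z} {F : Z → ℝ≥0∞} {K I : ℝ≥0∞} {q : ℝ}

/-- the constant -/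
noncomputable def cl2 (q : ℝ) : ℝ≥0∞ := 1 + 4 * (1 - ENNReal.ofReal (4 ^ (1 - q)))⁻¹

lemma cl2_lt (hq : 1 < q) : cl2 q < ⊤ := by
  unfold cl2
  refine ENNReal.add_lt_top.2 ⟨ENNReal.one_lt_top, ENNReal.mul_lt_top (by simp) ?_⟩
  rw [ENNReal.inv_lt_top, tsub_pos_iff_lt, ENNReal.ofReal_lt_one]
  exact Real.rpow_lt_one_of_one_lt_of_neg (by norm_num) (by linarith)

/-- from the weak type bound to the quadratic mean on a set -/
lemma layer (hq : 1 < q) (hF : Measurable F) (hI : I ≠ ⊤)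
    (h : ∀ l : ℝ, 0 < l → ν {z | ENNReal.ofReal l < F z} ≤ K * (I / ENNReal.ofReal l ^ 2) ^ q)
    (B : Set Z) : ∫⁻ z in B, F z ^ 2 ∂ν ≤ cl2 q * (ν B + K) * I := by
  have hq0 : 0 < q := by linarith
  rcases eq_or_ne I 0 with h0 | h0
  · have h1 : ∀ l : ℝ, 0 < l → ν {z | ENNReal.ofReal l < F z} = 0 := by
      intro l hl
      have := h l hl
      rw [h0, ENNReal.zero_div, ENNReal.zero_rpow_of_pos hq0, mul_zero] at this
      exact le_antisymm this bot_le
    have h2 : ∀ᵐ z ∂ν, F z = 0 := by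
      rw [ae_iff]
      refine measure_mono_null (t := ⋃ k : ℕ, {z | ENNReal.ofReal (1 / ((k : ℝ) + 1)) < F z}) ?_
        (measure_iUnion_null fun k => h1 _ (by positivity))
      intro z hz
      have hz' : F z ≠ 0 := hz
      have hlim : Tendsto (fun k : ℕ => ENNReal.ofReal (1 / ((k : ℝ) + 1))) atTop (𝓝 0) := by
        have := ENNReal.tendsto_ofReal (tendsto_one_div_add_atTop_nhds_zero_nat (𝕜 := ℝ))
        rwa [ENNReal.ofReal_zero] at this
      obtain ⟨k, hk⟩ := (hlim.eventually_lt_const (pos_iff_ne_zero.2 hz')).exists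
      exact mem_iUnion.2 ⟨k, hk⟩
    have h3 : ∫⁻ z in B, F z ^ 2 ∂ν = 0 := by
      refine le_antisymm ((setLIntegral_le_lintegral _ _).trans (le_of_eq ?_)) bot_le
      rw [lintegral_eq_zero_iff' (hF.pow_const 2).aemeasurable]
      filter_upwards [h2] with z hz
      simp [hz]
    rw [h3]
    exact bot_le
  set r : ℝ := √(I.toReal) with hr
  have hIr : 0 < I.toReal := ENNReal.toReal_pos h0 hI
  have hr0 : 0 < r := Real.sqrt_pos.2 hIr
  have hr2 : ENNReal.ofReal r ^ 2 = I := by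
    rw [← ENNReal.ofReal_pow hr0.le, hr, Real.sq_sqrt hIr.le, ENNReal.ofReal_toReal hI]
  have hm : ∀ k : ℕ, MeasurableSet {z | ENNReal.ofReal (r * 2 ^ k) < F z} := fun k =>
    measurableSet_lt measurable_const hF
  have hpt : ∀ z, F z ^ 2 ≤ I + ∑' k : ℕ, (4 ^ (k + 1) * I) *
      {z | ENNReal.ofReal (r * 2 ^ k) < F z}.indicator 1 z := by
    intro z
    rcases le_or_gt (F z) (ENNReal.ofReal r) with h1 | h1
    · refine le_trans ?_ le_self_add
      rw [← hr2]
      exact pow_le_pow_left' h1 2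
    rcases eq_or_ne (F z) ⊤ with h2 | h2
    · have e1 : ∑' k : ℕ, (4 ^ (k + 1) * I) *
          {z | ENNReal.ofReal (r * 2 ^ k) < F z}.indicator 1 z = ⊤ := by
        have h3 : ∀ k : ℕ, I ≤ (4 ^ (k + 1) * I) *
            {z | ENNReal.ofReal (r * 2 ^ k) < F z}.indicator 1 z := by
          intro k
          rw [indicator_of_mem (by
            change ENNReal.ofReal (r * 2 ^ k) < F z
            rw [h2]; exact ENNReal.ofReal_lt_top), Pi.one_apply, mul_one]
          calc I = 1 * I := (one_mul _).symm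
            _ ≤ 4 ^ (k + 1) * I := mul_le_mul' (one_le_pow₀ (by norm_num)) le_rfl
        refine top_unique (le_trans ?_ (ENNReal.tsum_le_tsum h3))
        rw [ENNReal.tsum_const_eq_top_of_ne_zero h0]
      rw [e1, add_top]
      exact le_top
    · set y := (F z).toReal with hy
      have hFy : F z = ENNReal.ofReal y := (ENNReal.ofReal_toReal h2).symm
      have hry : r < y := by
        rw [hFy] at h1
        exact (ENNReal.ofReal_lt_ofReal_iff_of_nonneg hr0.le).1 h1
      have hex : ∃ m : ℕ, y ≤ r * 2 ^ m := by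
        obtain ⟨m, hm⟩ := pow_unbounded_of_one_lt (y / r) (by norm_num : (1 : ℝ) < 2)
        refine ⟨m, ?_⟩
        rw [div_lt_iff₀ hr0] at hm
        linarith
      obtain ⟨k, hk1, hk2⟩ : ∃ k : ℕ, r * 2 ^ k < y ∧ y ≤ r * 2 ^ (k + 1) := by
        have h4 := Nat.find_spec hex
        rcases Nat.eq_zero_or_pos (Nat.find hex) with h5 | h5
        · rw [h5, pow_zero, mul_one] at h4
          exact absurd hry (not_lt.2 h4)
        · refine ⟨Nat.find hex - 1, ?_, ?_⟩
          · have := Nat.find_min hex (m := Nat.find hex - 1) (by omega)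
            exact not_le.1 this
          · rwa [Nat.sub_add_cancel h5]
      refine le_trans ?_ (le_trans (ENNReal.le_tsum k) le_add_self)
      rw [indicator_of_mem (by
        change ENNReal.ofReal (r * 2 ^ k) < F z
        rw [hFy]
        exact (ENNReal.ofReal_lt_ofReal_iff_of_nonneg (by positivity)).2 hk1), Pi.one_apply, mul_one,
        ← hr2, show (4 : ℝ≥0∞) = ENNReal.ofReal 4 by norm_num, ← ENNReal.ofReal_pow (by norm_num),
        ← ENNReal.ofReal_pow hr0.le, ← ENNReal.ofReal_mul (by positivity), hFy,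
        ← ENNReal.ofReal_pow (hr0.trans hry).le]
      refine ENNReal.ofReal_le_ofReal ?_
      calc y ^ 2 ≤ (r * 2 ^ (k + 1)) ^ 2 := pow_le_pow_left₀ (hr0.trans hry).le hk2 2
        _ = 4 ^ (k + 1) * r ^ 2 := by
            rw [mul_pow, ← pow_mul, mul_comm (k + 1) 2, pow_mul]; norm_num; ring
  have hmi : ∀ k : ℕ, Measurable (fun z => (4 ^ (k + 1) * I) *
      {z | ENNReal.ofReal (r * 2 ^ k) < F z}.indicator (1 : Z → ℝ≥0∞) z) := fun k =>
    (measurable_one.indicator (hm k)).const_mul _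
  refine (lintegral_mono hpt).trans ?_
  rw [lintegral_add_left measurable_const, lintegral_const, Measure.restrict_apply_univ,
    lintegral_tsum (fun k => (hmi k).aemeasurable)]
  have hk : ∀ k : ℕ, ∫⁻ z in B, (4 ^ (k + 1) * I) *
      {z | ENNReal.ofReal (r * 2 ^ k) < F z}.indicator (1 : Z → ℝ≥0∞) z ∂ν ≤
      4 * (K * I) * ENNReal.ofReal (4 ^ (1 - q)) ^ k := by
    intro k
    rw [lintegral_const_mul _ (measurable_one.indicator (hm k)), lintegral_indicator_one (hm k)]
    have h1 := (Measure.restrict_apply_le (μ := ν) B {z | ENNReal.ofReal (r * 2 ^ k) < F z}).trans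
      (h (r * 2 ^ k) (by positivity))
    have h2 : (I / ENNReal.ofReal (r * 2 ^ k) ^ 2) ^ q = ENNReal.ofReal (4 ^ (-q)) ^ k := by
      rw [ENNReal.ofReal_mul hr0.le, mul_pow, hr2, ENNReal.ofReal_pow (by norm_num),
        ENNReal.ofReal_ofNat, ← pow_mul, mul_comm k 2, pow_mul]
      have e4 : ((2 : ℝ≥0∞) ^ 2) = 4 := by norm_num
      rw [e4]
      have e5 : I / (I * 4 ^ k) = (4⁻¹ : ℝ≥0∞) ^ k := by
        rw [div_eq_mul_inv, ENNReal.mul_inv (Or.inl h0) (Or.inl hI), ← mul_assoc,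
          ENNReal.mul_inv_cancel h0 hI, one_mul, ENNReal.inv_pow]
      rw [e5, ← ENNReal.rpow_natCast, ← ENNReal.rpow_mul, mul_comm (k : ℝ) q, ENNReal.rpow_mul,
        ENNReal.rpow_natCast]
      congr 1
      rw [Real.rpow_neg (by norm_num), ENNReal.ofReal_inv_of_pos (by positivity),
        ← ENNReal.ofReal_rpow_of_pos (by norm_num), ENNReal.ofReal_ofNat, ENNReal.inv_rpow]
    rw [h2] at h1
    refine (mul_le_mul' le_rfl h1).trans (le_of_eq ?_)
    have e6 : ENNReal.ofReal (4 ^ (1 - q)) = 4 * ENNReal.ofReal (4 ^ (-q)) := by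
      rw [show (4 : ℝ≥0∞) = ENNReal.ofReal 4 by norm_num, ← ENNReal.ofReal_mul (by norm_num)]
      congr 1
      rw [sub_eq_add_neg, Real.rpow_add (by norm_num), Real.rpow_one]
    rw [e6, mul_pow]
    ring
  refine (add_le_add le_rfl (ENNReal.tsum_le_tsum hk)).trans ?_
  rw [ENNReal.tsum_mul_left, ENNReal.tsum_geometric]
  unfold cl2
  set X := (1 - ENNReal.ofReal (4 ^ (1 - q)))⁻¹
  calc I * ν B + 4 * (K * I) * X ≤ I * ν B + 4 * (K * I) * X + (I * K + 4 * (ν B * I) * X) :=
        le_self_add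
    _ = (1 + 4 * X) * (ν B + K) * I := by ring

end layer

section lim

variable {n : ℕ} {c : Fin n → ℝ} {G : En n → ℂ} {D : ℝ → Set (En n)}

lemma W_l2 (hG : MemLp G 2) {E : Set (En n)} (hE : MeasurableSet E) (hv : volume E < ⊤) (s : ℝ) :
    ∫⁻ x, ‖W c G E (s, x)‖ₑ ^ 2 ≤ mass G E := by
  have hi := piece_int hG hE hv
  have hi2 : Integrable (fun ξ => tp c s ξ * E.indicator G ξ) := by
    refine hi.norm.mono' ((tp_c1 s).aestronglyMeasurable.mul hi.aestronglyMeasurable)
      (Eventually.of_forall fun ξ => le_of_eq ?_)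
    rw [norm_mul, tp_norm, one_mul]
  have e1 : ∀ x, W c G E (s, x) = Fi (fun ξ => tp c s ξ * E.indicator G ξ) x := fun x => by
    rw [W_eq hE]; rfl
  simp_rw [e1]
  refine (bessel hi2).trans (le_of_eq ?_)
  rw [mass, ← lintegral_indicator hE]
  refine lintegral_congr fun ξ => ?_
  rw [enorm_mul, ← ofReal_norm (tp c s ξ), tp_norm, ENNReal.ofReal_one, one_mul]
  by_cases h : ξ ∈ E
  · rw [indicator_of_mem h, indicator_of_mem h]
  · rw [indicator_of_notMem h, indicator_of_notMem h]; simp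

lemma W_slice (hG : MemLp G 2) {E : Set (En n)} (hE : MeasurableSet E) (hv : volume E < ⊤) (s : ℝ) :
    Continuous fun x => W c G E (s, x) :=
  (W_cont hG hE hv).comp (by fun_prop)

lemma W_memLp (hG : MemLp G 2) {E : Set (En n)} (hE : MeasurableSet E) (hv : volume E < ⊤) (s : ℝ) :
    MemLp (fun x => W c G E (s, x)) 2 := by
  refine ⟨(W_slice hG hE hv s).aestronglyMeasurable, ?_⟩
  rw [eLpNorm_lt_top_iff_lintegral_rpow_enorm_lt_top (by norm_num) (by norm_num)]
  simpa using (W_l2 (c := c) hG hE hv s).trans_lt (mass_lt hG E)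

/-- **the limit in the mean** -/
lemma lim_l2 (hG : MemLp G 2) (hDm : ∀ R, MeasurableSet (D R)) (hDv : ∀ R, volume (D R) < ⊤)
    (hDD : Monotone D) {s : ℝ}
    (h : ∀ᵐ x : En n, ∃ y, Tendsto (fun R => W c G (D R) (s, x)) atTop (𝓝 y)) :
    ∃ u : En n → ℂ, MemLp u 2 ∧
      Tendsto (fun R => ∫⁻ x, ‖W c G (D R) (s, x) - u x‖ₑ ^ 2) atTop (𝓝 0) ∧
      ∀ᵐ x : En n, Tendsto (fun R => W c G (D R) (s, x)) atTop (𝓝 (u x)) := by
  classical
  set u : En n → ℂ := fun x => if hx : ∃ y, Tendsto (fun R => W c G (D R) (s, x)) atTop (𝓝 y) then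
    hx.choose else 0 with hu
  have hlim : ∀ᵐ x : En n, Tendsto (fun R => W c G (D R) (s, x)) atTop (𝓝 (u x)) := by
    filter_upwards [h] with x hx
    simp only [hu, dif_pos hx]
    exact hx.choose_spec
  have hnat : ∀ᵐ x : En n, Tendsto (fun m : ℕ => W c G (D m) (s, x)) atTop (𝓝 (u x)) := by
    filter_upwards [hlim] with x hx
    exact hx.comp tendsto_natCast_atTop_atTop
  have hum : AEStronglyMeasurable u volume :=
    aestronglyMeasurable_of_tendsto_ae atTop
      (fun m : ℕ => (W_slice (c := c) hG (hDm m) (hDv m) s).aestronglyMeasurable) hnat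
  have hbd : ∀ R, ∫⁻ x, ‖W c G (D R) (s, x) - u x‖ₑ ^ 2 ≤ mass G ((⋃ j : ℕ, D j) \ D R) := by
    intro R
    have h1 : ∀ᵐ x : En n, ‖W c G (D R) (s, x) - u x‖ₑ ^ 2 =
        liminf (fun m : ℕ => ‖W c G (D R) (s, x) - W c G (D m) (s, x)‖ₑ ^ 2) atTop := by
      filter_upwards [hnat] with x hx
      have h2 : Tendsto (fun m : ℕ => ‖W c G (D R) (s, x) - W c G (D m) (s, x)‖ₑ ^ 2) atTop
          (𝓝 (‖W c G (D R) (s, x) - u x‖ₑ ^ 2)) :=
        ENNReal.Tendsto.pow ((tendsto_const_nhds.sub hx).enorm)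
      exact h2.liminf_eq.symm
    rw [lintegral_congr_ae h1]
    have hm : ∀ m : ℕ, Measurable fun x => ‖W c G (D R) (s, x) - W c G (D m) (s, x)‖ₑ ^ 2 :=
      fun m => (((W_slice (c := c) hG (hDm R) (hDv R) s).sub
        (W_slice (c := c) hG (hDm m) (hDv m) s)).enorm.measurable).pow_const 2
    refine (lintegral_liminf_le hm).trans ?_
    refine liminf_le_of_frequently_le' (Eventually.frequently ?_)
    obtain ⟨m0, hm0⟩ := exists_nat_ge R
    filter_upwards [eventually_ge_atTop m0] with m hm1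
    have hRm : R ≤ m := hm0.trans (by exact_mod_cast hm1)
    have e1 : ∀ x, ‖W c G (D R) (s, x) - W c G (D m) (s, x)‖ₑ ^ 2 =
        ‖W c G (D m \ D R) (s, x)‖ₑ ^ 2 := fun x => by
      rw [W_diff hG (hDm R) (hDm m) (hDv m) (hDD hRm) (s, x), sub_add_cancel_left, enorm_neg]
    simp_rw [e1]
    refine (W_l2 hG ((hDm m).diff (hDm R)) ((measure_mono sdiff_subset).trans_lt (hDv m)) s).trans ?_
    exact mass_mono (sdiff_subset_sdiff_left (sub_Dinf hDD m))
  have hzero : Tendsto (fun R : ℝ => mass G ((⋃ j : ℕ, D j) \ D R)) atTop (𝓝 0) := by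
    rw [ENNReal.tendsto_nhds_zero]
    intro ε hε
    obtain ⟨m, hm⟩ := ((t_tendsto hG hDm hDD).eventually_le_const hε).exists
    filter_upwards [eventually_ge_atTop (m : ℝ)] with R hR
    exact (mass_mono (sdiff_subset_sdiff_right (hDD hR))).trans hm
  refine ⟨u, ?_, ?_, hlim⟩
  · have h3 : MemLp (fun x => W c G (D 0) (s, x) - u x) 2 := by
      refine ⟨(W_slice (c := c) hG (hDm 0) (hDv 0) s).aestronglyMeasurable.sub hum, ?_⟩
      rw [eLpNorm_lt_top_iff_lintegral_rpow_enorm_lt_top (by norm_num) (by norm_num)]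
      simpa using (hbd 0).trans_lt (mass_lt hG _)
    have h4 := (W_memLp (c := c) hG (hDm 0) (hDv 0) s).sub h3
    refine h4.ae_eq (Eventually.of_forall fun x => ?_)
    simp
  · exact tendsto_of_tendsto_of_tendsto_of_le_of_le tendsto_const_nhds hzero
      (fun R => bot_le) hbd

end lim

end Pool.Agent.W2helper73.SC
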